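import Mathlib
import Pool.Agent.Run7.h407.D.Grw
import Pool.Agent.Run7.h407.G.Vor

/-!
Gradient and vorticity of the velocity field of the chain with first field `U`.
-/

namespace Pool.Agent.Run7.h407.G.X

open Set Filter Topology MeasureTheory
open scoped ContDiff

/-- Near the child place the parent is a linear strain. -/
theorem psi3_near {r μ : ℝ} (hr : 2 ≤ r) (δ : ℝ) : ∀ᶠ y in 𝓝 ez,
    psi3 r μ δ y = ![-((y - ez) 0), -((y - ez) 1), 2 * (y - ez) 2 + 1] := by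
  have h1 : ∀ᶠ w in 𝓝 (0 : V), par δ (hc μ) Gp w = ![-(w 0), -(w 1), 2 * w 2 + 1] := by
    have h2 := str_near (Gp_loc (y := (0 : V)) (by rw [s2_zero]; norm_num))
    have h3 := (hc_near μ).eventually_nhds
    filter_upwards [h2, h3] with w hw1 hw2
    have h6 : sw (pd 2 (hc μ)) w = 0 := by
      have h7 : pd 2 (hc μ) w = 0 := by
        have : hc μ =ᶠ[𝓝 w] fun _ => μ ^ 5 := hw2
        rw [pd_congr this, pd_const]
      unfold sw
      rw [h7]
      funext i
      fin_cases i <;> simp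
    unfold par
    rw [hw1, h6, smul_zero, add_zero]
  have h4 : Tendsto (fun y : V => y - ez) (𝓝 ez) (𝓝 0) := by
    have : Continuous (fun y : V => y - ez) := by fun_prop
    have h5 := this.tendsto ez
    rwa [sub_self] at h5
  have h6 : ∀ᶠ y in 𝓝 ez, y 2 < 2 := nhds_lt2 (by rw [ez_two]; norm_num)
  filter_upwards [h4.eventually h1, h6] with y hy1 hy2
  rw [psi3_left hr δ hy2, hy1]

/-- Near the child place the child is a rigid rotation. -/
theorem dil3_near {μ μ' : ℝ} (hμ : 2 ≤ μ) (hμ' : 2 ≤ μ') (δ' : ℝ) : ∀ᶠ y in 𝓝 ez,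
    dil μ (psi3 μ μ' δ') y = ![-((y - ez) 1) * μ ^ 5, (y - ez) 0 * μ ^ 5, 0] := by
  have h4 : Tendsto (fun y : V => y - ez) (𝓝 ez) (𝓝 0) := by
    have : Continuous (fun y : V => y - ez) := by fun_prop
    have h5 := this.tendsto ez
    rwa [sub_self] at h5
  have h6 : ∀ᶠ y in 𝓝 ez, 1 / 2 < y 2 := nhds_gt2 (by rw [ez_two]; norm_num)
  filter_upwards [h4.eventually (hc_near μ), h6] with y hy1 hy2
  rw [dil3_right hμ hμ' δ' hy2]
  unfold sw
  rw [hy1]

theorem curl2_strain {r μ : ℝ} (hr : 2 ≤ r) (δ : ℝ) : curl2 (psi3 r μ δ) ez = 0 := by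
  have h1 : ∀ᶠ y in 𝓝 ez, psi3 r μ δ y
      = (fun y : V => (![-((y - ez) 0), -((y - ez) 1), 2 * (y - ez) 2 + 1] : V)) y :=
    psi3_near hr δ
  rw [curl2_congr h1]
  unfold curl2
  have e0 : (fun y : V => (![-((y - ez) 0), -((y - ez) 1), 2 * (y - ez) 2 + 1] : V) 1)
      = fun y => -(y 1 - ez 1) := by
    funext y
    simp
  have e2 : (fun y : V => (![-((y - ez) 0), -((y - ez) 1), 2 * (y - ez) 2 + 1] : V) 0)
      = fun y => -(y 0 - ez 0) := by
    funext y
    simp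
  rw [e0, e2, pd_neg, pd_neg, pd_sub ((coord_sm 1).diff _) (differentiableAt_const _),
    pd_sub ((coord_sm 0).diff _) (differentiableAt_const _), pd_coord, pd_coord, pd_const,
    pd_const]
  simp

theorem curl2_swirl {μ μ' : ℝ} (hμ : 2 ≤ μ) (hμ' : 2 ≤ μ') (δ' : ℝ) :
    curl2 (dil μ (psi3 μ μ' δ')) ez = 2 * μ ^ 5 := by
  have h1 : ∀ᶠ y in 𝓝 ez, dil μ (psi3 μ μ' δ') y
      = (fun y : V => (![-((y - ez) 1) * μ ^ 5, (y - ez) 0 * μ ^ 5, 0] : V)) y :=
    dil3_near hμ hμ' δ'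
  rw [curl2_congr h1]
  unfold curl2
  have e0 : (fun y : V => (![-((y - ez) 1) * μ ^ 5, (y - ez) 0 * μ ^ 5, 0] : V) 1)
      = fun y => μ ^ 5 * (y 0 - ez 0) := by
    funext y
    simp
    ring
  have e2 : (fun y : V => (![-((y - ez) 1) * μ ^ 5, (y - ez) 0 * μ ^ 5, 0] : V) 0)
      = fun y => -(μ ^ 5 * (y 1 - ez 1)) := by
    funext y
    simp
    ring
  have s1 : Sm (fun y : V => y 0 - ez 0) := (coord_sm 0).sub contDiff_const
  have s2 : Sm (fun y : V => y 1 - ez 1) := (coord_sm 1).sub contDiff_const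
  rw [e0, e2, pd_neg, pd_const_mul _ (s1.diff _), pd_const_mul _ (s2.diff _),
    pd_sub ((coord_sm 1).diff _) (differentiableAt_const _),
    pd_sub ((coord_sm 0).diff _) (differentiableAt_const _), pd_coord, pd_coord, pd_const,
    pd_const]
  simp
  ring


section

variable {α γ s0 R : ℝ} (h : Pre α γ s0 R)

/-- The centres of the swirls. -/
noncomputable def Pre.xc (m : ℕ) : V := (h.sc.σ m ^ 2)⁻¹ • ez

theorem Pre.xc_smul (m : ℕ) : h.sc.σ m ^ 2 • h.xc m = ez := by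
  unfold Pre.xc
  have := h.sc.σ_pos m
  rw [smul_smul, mul_inv_cancel₀ (by positivity), one_smul]

theorem Pre.xc_two (m : ℕ) : h.sc.σ m ^ 2 * h.xc m 2 = 1 := by
  have h1 := congrFun (h.xc_smul m) 2
  rw [ez_two] at h1
  exact h1

theorem Pre.xc_norm (m : ℕ) : h.sc.σ m ^ 2 * ‖h.xc m‖ = 1 := by
  have h1 := congrArg norm (h.xc_smul m)
  rw [norm_smul, norm_ez, Real.norm_eq_abs, abs_of_nonneg (by positivity)] at h1
  exact h1

theorem Pre.near_xc (m : ℕ) : ∀ᶠ y in 𝓝 (h.xc m), h.sc.σ m ^ 2 * ‖y‖ < 2 ∧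
    ∀ k, k ≠ m + 1 → k ≠ m + 2 → h.sc.P k y = 0 := by
  have hcont : Continuous (fun y : V => h.sc.σ m ^ 2 * y 2) :=
    continuous_const.mul (continuous_apply 2)
  have hcont2 : Continuous (fun y : V => h.sc.σ m ^ 2 * ‖y‖) :=
    continuous_const.mul continuous_norm
  have h3 : ∀ᶠ y in 𝓝 (h.xc m), 1 / 2 < h.sc.σ m ^ 2 * y 2 ∧ h.sc.σ m ^ 2 * y 2 < 2 :=
    (hcont.tendsto _).eventually (Ioo_mem_nhds (by rw [h.xc_two]; norm_num)
      (by rw [h.xc_two]; norm_num))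
  have h3' : ∀ᶠ y in 𝓝 (h.xc m), h.sc.σ m ^ 2 * ‖y‖ < 2 :=
    (hcont2.tendsto _).eventually (gt_mem_nhds (by rw [h.xc_norm]; norm_num))
  filter_upwards [h3, h3'] with y hy hyn
  refine ⟨hyn, fun k hk1 hk2 => ?_⟩
  have hm := h.sc.σ_pos m
  have hy0 : 0 < y 2 := by
    by_contra hcon
    push Not at hcon
    nlinarith [pow_pos hm 2, hy.1]
  cases k with
  | zero => rfl
  | succ l =>
    by_contra hcon
    have h4 := h.sc.blk_supp hcon
    rcases lt_or_ge l m with hlt | hge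
    · have h5 := h.sc.σ_sq hlt
      nlinarith [h4.1, hy.2]
    · obtain ⟨k, rfl⟩ : ∃ k, l = k + 1 := ⟨l - 1, by omega⟩
      have h5 := (h.sc.supp_ball hcon).trans (h.sc.hi_le k)
      have h5' : y 2 ≤ ‖y‖ := coord2_le y
      have h6 := h.sc.σ_sq (show m < k by omega)
      have h7 := h.sc.σ_pos k
      rw [le_div_iff₀ (by positivity)] at h5
      nlinarith [hy.1]

end

variable {U T : V → V} {l R1 : ℝ} {α γ s0 R : ℝ} {L0 DT ν a0 : ℝ} {h : Pre α γ s0 R}

/-- The vorticity at the centres of the swirls. -/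
theorem Lnk.curl_xc (k : Lnk U T l R1 h L0 DT ν a0) {a : ℕ → ℝ} {v : V → V}
    (hm : Mem (h.sc.Q U T) a v) (m : ℕ) :
    curl2 v (h.xc m) = 2 * a (m + 3) * h.sc.σ (m + 1) ^ 5 := by
  have hd := k.hd
  have hl := k.hl
  have h0 := h.sc.σ_pos 0
  have h01 : h.sc.σ 0 ^ 2 ≤ h.sc.σ m ^ 2 := pow_le_pow_left₀ h0.le (h.sc.σ_mono (Nat.zero_le m)) 2
  have h1 : ∀ᶠ y in 𝓝 (h.xc m), v y
      = (fun y => a (m + 2) • h.sc.P (m + 1) y + a (m + 3) • h.sc.P (m + 2) y) y := by
    filter_upwards [h.near_xc m] with y hy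
    have hyl : ‖y‖ < l := by
      have h3 : h.sc.σ 0 ^ 2 * ‖y‖ < h.sc.σ 0 ^ 2 * l := by
        have := mul_le_mul_of_nonneg_right h01 (norm_nonneg y)
        linarith [hy.1]
      exact lt_of_mul_lt_mul_left h3 (by positivity)
    have hU : U y = 0 := by
      by_contra hcon
      linarith [(hd.su y hcon).1]
    have hT : T y = 0 := by
      by_contra hcon
      linarith [(hd.st y hcon).1]
    have h2 : HasSum (fun k => a k • h.sc.Q U T k y)
        (∑ k ∈ ({m + 2, m + 3} : Finset ℕ), a k • h.sc.Q U T k y) := by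
      apply hasSum_sum_of_ne_finset_zero
      intro j hj
      simp only [Finset.mem_insert, Finset.mem_singleton, not_or] at hj
      have e2 : h.sc.Q U T j y = 0 := by
        match j, hj with
        | 0, _ => rfl
        | 1, _ => exact hU
        | 2, hj =>
          show T y + h.sc.P 1 y = 0
          rw [hT, zero_add]
          exact hy.2 1 (by omega) (by omega)
        | i + 3, hj =>
          show h.sc.P (i + 2) y = 0
          exact hy.2 (i + 2) (by omega) (by omega)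
      rw [e2, smul_zero]
    rw [(hm y).unique h2, Finset.sum_pair (by omega)]
    have e3 : h.sc.Q U T (m + 2) y = h.sc.P (m + 1) y := by
      match m with
      | 0 =>
        show T y + h.sc.P 1 y = h.sc.P 1 y
        rw [hT, zero_add]
      | i + 1 => rfl
    rw [e3]
    rfl
  rw [curl2_congr h1, curl2_two (h.sc.chn.cf _) (h.sc.chn.cf _)]
  have e1' : curl2 (h.sc.P (m + 1)) (h.xc m) = 0 := by
    rw [h.sc.P_succ, curl2_dil (h.sc.blk_CF m).smc, h.xc_smul]
    have : curl2 (h.sc.blk m) ez = 0 := curl2_strain (h.sc.rr_two m) _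
    rw [this, mul_zero]
  have e2 : curl2 (h.sc.P (m + 2)) (h.xc m) = 2 * h.sc.σ (m + 1) ^ 5 := by
    rw [h.sc.P_next, curl2_dil (dil_CF (h.sc.blk_CF (m + 1)) (h.sc.ρ_pos m).ne').smc, h.xc_smul]
    have : curl2 (dil (h.sc.ρ m) (h.sc.blk (m + 1))) ez = 2 * h.sc.ρ m ^ 5 :=
      curl2_swirl (h.sc.hρ m) (h.sc.hρ (m + 1)) _
    rw [this, h.sc.σ_succ]
    ring
  rw [e1', e2]
  ring

/-- The vorticity is unbounded. -/
theorem Lnk.curl_blow (k : Lnk U T l R1 h L0 DT ν a0)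
    {Tb : ℝ} {A : ℕ → ℝ → ℝ} (S : Sol k.par Tb A) (M : ℝ) :
    ∀ᶠ t in 𝓝[<] Tb, ∃ x : V, h.sc.σ 0 ^ 2 * ‖x‖ ≤ 1 ∧
      M < curl2 (vel (h.sc.Q U T) (cofG (h.sc.Q U T) A) t) x := by
  have ha0 := k.ha0
  have hg := Sc.goodQ (c := h.sc) (h.sc.wgt h.stp) k.hd k.hl
  have ht : Tendsto (fun n : ℕ => a0 * (1.5 : ℝ) ^ (n + 1)) atTop atTop :=
    Tendsto.const_mul_atTop ha0 ((tendsto_add_atTop_iff_nat 1).2
      (tendsto_pow_atTop_atTop_of_one_lt (by norm_num)))
  obtain ⟨m, hm⟩ := (ht.eventually_gt_atTop M).exists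
  obtain ⟨σ, h0, h1, h2⟩ := S.low (m + 2)
  filter_upwards [Ioo_mem_nhdsLT h1] with t ht
  have htm : t ∈ Ico 0 Tb := ⟨h0.trans ht.1.le, ht.2⟩
  refine ⟨h.xc m, ?_, hm.trans_le ?_⟩
  · have h3 := h.xc_norm m
    have h4 : h.sc.σ 0 ^ 2 ≤ h.sc.σ m ^ 2 :=
      pow_le_pow_left₀ (h.sc.σ_pos 0).le (h.sc.σ_mono (Nat.zero_le m)) 2
    have := mul_le_mul_of_nonneg_right h4 (norm_nonneg (h.xc m))
    linarith
  rw [k.curl_xc (hg.mem k.pw S htm) m]
  have hlow := k.cof_low (n := m + 1) (h2 t ht)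
  have hσ := h.sc.σ_pos (m + 1)
  have hs := h.s0_pos
  rw [div_le_iff₀ (by positivity)] at hlow
  have e1' : 1 ≤ (h.sc.σ (m + 1) / s0) ^ (α * γ) := by
    apply Real.one_le_rpow
    · rw [one_le_div hs]
      have := h.sc.σ_mono (Nat.zero_le (m + 1))
      rw [h.sc.σ_zero] at this
      exact this
    · have := h.hα
      have := h.hγ
      positivity
  have e2 : a0 * 1.5 ^ (m + 1) ≤ 2 * (a0 / 2 * (1.5 ^ (m + 1)
      * (h.sc.σ (m + 1) / s0) ^ (α * γ))) := by
    have : 0 < a0 * (1.5 : ℝ) ^ (m + 1) := by positivity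
    nlinarith
  have e3 : cofG (h.sc.Q U T) A (m + 1 + 2) t = (fun n => cofG (h.sc.Q U T) A n t) (m + 3) := rfl
  rw [e3] at hlow
  linarith

/-- Pointwise bound of the gradient. -/
theorem Lnk.grad_bd (k : Lnk U T l R1 h L0 DT ν a0)
    {Tb : ℝ} {A : ℕ → ℝ → ℝ} (S : Sol k.par Tb A) {s : ℝ} (hs : 0 < s)
    (h16 : 16 ≤ R ^ (2 * s - γ * (α * γ))) :
    ∃ C, ∀ t ∈ Ico 0 Tb, ∀ x i j,
      |pd j (fun y => vel (h.sc.Q U T) (cofG (h.sc.Q U T) A) t y i) x| * ‖x‖ ^ s ≤ C := by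
  obtain ⟨C, hC0, hC⟩ := h.geo hs.le h16
  obtain ⟨B, hB0, hB⟩ := h.blk_grad
  choose M1 m1 b1 using fun (i j : Fin 3) =>
    cs_bound' ((k.hd.cu.smc i).pd j) (pd_cs (k.hd.cu.csc i) j)
  choose M2 m2 b2 using fun (i j : Fin 3) =>
    cs_bound' (((Sc.Q2_CF (c := h.sc) k.hd).smc i).pd j)
      (pd_cs ((Sc.Q2_CF (c := h.sc) k.hd).csc i) j)
  set N1 := ∑ i, ∑ j, M1 i j with hN1
  set N2 := ∑ i, ∑ j, M2 i j with hN2
  have hN1' : ∀ i j, M1 i j ≤ N1 := by
    intro i j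
    refine (Finset.single_le_sum (f := fun j => M1 i j) (fun j _ => m1 i j)
      (Finset.mem_univ j)).trans ?_
    exact Finset.single_le_sum (f := fun i => ∑ j, M1 i j)
      (fun i _ => Finset.sum_nonneg fun j _ => m1 i j) (Finset.mem_univ i)
  have hN2' : ∀ i j, M2 i j ≤ N2 := by
    intro i j
    refine (Finset.single_le_sum (f := fun j => M2 i j) (fun j _ => m2 i j)
      (Finset.mem_univ j)).trans ?_
    exact Finset.single_le_sum (f := fun i => ∑ j, M2 i j)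
      (fun i _ => Finset.sum_nonneg fun j _ => m2 i j) (Finset.mem_univ i)
  have hN1p : 0 ≤ N1 := (m1 0 0).trans (hN1' 0 0)
  have hN2p : 0 ≤ N2 := (m2 0 0).trans (hN2' 0 0)
  have hK := Kq_pos h.sc
  have ha0 := k.ha0
  have hk1 := k.kap1_pos
  have hRα : 0 < R ^ α := Real.rpow_pos_of_pos h.R_pos _
  have hg := Sc.goodQ (c := h.sc) (h.sc.wgt h.stp) k.hd k.hl
  set ρ : ℝ := max R1 (17 / 4) with hρ
  have hρ0 : 0 ≤ ρ := by rw [hρ]; exact (by norm_num : (0 : ℝ) ≤ 17 / 4).trans (le_max_right _ _)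
  have hρs : 0 ≤ ρ ^ s := Real.rpow_nonneg hρ0 _
  have hσ0 := h.sc.σ_pos 0
  have hnn : 0 ≤ h.sc.σ 0 ^ (α * γ - 5) := Real.rpow_nonneg hσ0.le _
  set K1 := ρ ^ s * (kapG (h.sc.Q U T) 1 * a0 * N1) with hK1
  set K2 := ρ ^ s * ((8 * R ^ α * Kq * a0 * (8 ^ 0 * h.sc.σ 0 ^ (α * γ - 5))) * N2) with hK2
  set K3 := 8 * R ^ α * Kq * a0 * B * C with hK3
  have hK1' : 0 ≤ K1 := by positivity
  have hK2' : 0 ≤ K2 := by positivity
  have hK3' : 0 ≤ K3 := by positivity
  set KK := K1 + 2 * K2 + 2 * K3 with hKK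
  have hKKp : 0 ≤ KK := by positivity
  refine ⟨KK * 2, fun t ht x i j => ?_⟩
  by_cases hx : x = 0
  · rw [hx, norm_zero, Real.zero_rpow hs.ne', mul_zero]
    positivity
  have hm := hg.mem k.pw S ht
  obtain ⟨K, hK'⟩ := ChN.mem_rep hg.ch hm hx
  have hxs : 0 ≤ ‖x‖ ^ s := Real.rpow_nonneg (norm_nonneg _) _
  have e : (fun y => vel (h.sc.Q U T) (cofG (h.sc.Q U T) A) t y i)
      =ᶠ[𝓝 x] fun y => (∑ n ∈ Finset.range K,
        cofG (h.sc.Q U T) A n t • h.sc.Q U T n y) i := by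
    filter_upwards [hK'] with y hy
    rw [hy]
  rw [pd_congr e, pd_fsum hg.ch.cf]
  have hterm : ∀ n, |cofG (h.sc.Q U T) A (n + 1) t
      * pd j (fun y => h.sc.Q U T (n + 1) y i) x| * ‖x‖ ^ s ≤ KK * (1 / 2) ^ n := by
    intro n
    have hball : (¬ ∀ᶠ y in 𝓝 x, h.sc.Q U T (n + 1) y = 0) → ‖x‖ ^ s ≤ ρ ^ s := by
      intro hne
      apply Real.rpow_le_rpow (norm_nonneg _) _ hs.le
      by_contra hcon
      push Not at hcon
      exact hne (closure_ball (fun y hy => hg.ch.ball _ y hy) hcon)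
    by_cases hz : ∀ᶠ y in 𝓝 x, h.sc.Q U T (n + 1) y = 0
    · rw [pd_field_zero hz, mul_zero, abs_zero, zero_mul]
      positivity
    have e3 := hball hz
    rw [abs_mul]
    match n with
    | 0 =>
      rw [pow_zero, mul_one]
      have e1 := k.cof_one S ht
      have e2 := (b1 i j x).trans (hN1' i j)
      calc |cofG (h.sc.Q U T) A (0 + 1) t| * |pd j (fun y => h.sc.Q U T (0 + 1) y i) x| * ‖x‖ ^ s
          ≤ ((kapG (h.sc.Q U T) 1 * a0) * N1) * ρ ^ s := by
            apply mul_le_mul _ e3 hxs (by positivity)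
            exact mul_le_mul e1 e2 (abs_nonneg _) (by positivity)
        _ = K1 := by
            rw [hK1]
            ring
        _ ≤ _ := by linarith
    | 1 =>
      rw [pow_one]
      have e1 := k.cof_up S 0 ht
      have e2 := (b2 i j x).trans (hN2' i j)
      calc |cofG (h.sc.Q U T) A (1 + 1) t| * |pd j (fun y => h.sc.Q U T (1 + 1) y i) x| * ‖x‖ ^ s
          ≤ ((8 * R ^ α * Kq * a0 * (8 ^ 0 * h.sc.σ 0 ^ (α * γ - 5))) * N2) * ρ ^ s := by
            apply mul_le_mul _ e3 hxs (by positivity)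
            exact mul_le_mul e1 e2 (abs_nonneg _) (by positivity)
        _ = K2 := by
            rw [hK2]
            ring
        _ ≤ _ := by linarith
    | m + 2 =>
      have hσ := h.sc.σ_pos (m + 1)
      have hle : ‖x‖ ≤ h.sc.hi (m + 1 + 1) := by
        by_contra hcon
        push Not at hcon
        exact hz (closure_ball (u := h.sc.P (m + 2)) (fun y hy => h.sc.supp_ball hy) hcon)
      have h1 := hC (m + 1) x hle
      have h2 := k.cof_up S (m + 1) ht
      have h3 := hB (m + 1) x i j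
      calc |cofG (h.sc.Q U T) A (m + 2 + 1) t| * |pd j (fun y => h.sc.Q U T (m + 2 + 1) y i) x|
            * ‖x‖ ^ s
          ≤ (8 * R ^ α * Kq * a0 * (8 ^ (m + 1) * h.sc.σ (m + 1) ^ (α * γ - 5)))
            * (h.sc.σ (m + 1) ^ 5 * B) * ‖x‖ ^ s := by
            apply mul_le_mul_of_nonneg_right _ hxs
            exact mul_le_mul h2 h3 (abs_nonneg _) (by positivity)
        _ = 8 * R ^ α * Kq * a0 * B * (8 ^ (m + 1)
            * (h.sc.σ (m + 1) ^ (α * γ - 5) * h.sc.σ (m + 1) ^ (5 : ℕ)) * ‖x‖ ^ s) := by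
            ring
        _ = 8 * R ^ α * Kq * a0 * B * (8 ^ (m + 1) * h.sc.σ (m + 1) ^ (α * γ) * ‖x‖ ^ s) := by
            rw [← Real.rpow_natCast (h.sc.σ (m + 1)) 5, ← Real.rpow_add hσ]
            congr 4
            push_cast
            ring
        _ ≤ 8 * R ^ α * Kq * a0 * B * (C * (1 / 2) ^ (m + 1)) :=
            mul_le_mul_of_nonneg_left h1 (by positivity)
        _ = 2 * K3 * (1 / 2) ^ (m + 2) := by
            rw [hK3]
            ring
        _ ≤ _ := by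
            apply mul_le_mul_of_nonneg_right _ (by positivity)
            linarith
  have hzero : cofG (h.sc.Q U T) A 0 t * pd j (fun y => h.sc.Q U T 0 y i) x = 0 := by
    have : pd j (fun y => h.sc.Q U T 0 y i) x = 0 := pd_const 0 x j
    rw [this, mul_zero]
  cases K with
  | zero =>
    rw [Finset.range_zero, Finset.sum_empty, abs_zero, zero_mul]
    positivity
  | succ K =>
    rw [Finset.sum_range_succ', hzero, add_zero]
    calc |∑ n ∈ Finset.range K, cofG (h.sc.Q U T) A (n + 1) t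
          * pd j (fun y => h.sc.Q U T (n + 1) y i) x| * ‖x‖ ^ s
        ≤ (∑ n ∈ Finset.range K, |cofG (h.sc.Q U T) A (n + 1) t
          * pd j (fun y => h.sc.Q U T (n + 1) y i) x|) * ‖x‖ ^ s :=
          mul_le_mul_of_nonneg_right (Finset.abs_sum_le_sum_abs _ _) hxs
      _ = ∑ n ∈ Finset.range K, |cofG (h.sc.Q U T) A (n + 1) t
          * pd j (fun y => h.sc.Q U T (n + 1) y i) x| * ‖x‖ ^ s := by
          rw [Finset.sum_mul]
      _ ≤ ∑ n ∈ Finset.range K, KK * (1 / 2) ^ n :=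
          Finset.sum_le_sum fun n _ => hterm n
      _ = KK * ∑ n ∈ Finset.range K, (1 / 2 : ℝ) ^ n := by
          rw [Finset.mul_sum]
      _ ≤ KK * 2 := by
          apply mul_le_mul_of_nonneg_left _ (by positivity)
          have h5 := (hasSum_geometric_two).summable.sum_le_tsum (Finset.range K)
            (fun n _ => by positivity)
          rw [tsum_geometric_two] at h5
          exact h5

end Pool.Agent.Run7.h407.G.X
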