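import Mathlib
import Pool.Agent.Run7.h407.D.Choice
import Pool.Agent.Run7.h407.DE.Vor

/-!
The choice of the parameters for a given first field, Euler equations (arbitrary ratios).
-/

namespace Pool.Agent.Run7.h407.G.X

open Set Filter Topology MeasureTheory
open scoped ContDiff

variable {U T0 φ : V → V} {l R1 : ℝ}

theorem exp3_tendE {α : ℝ} (hα : 0 < α) :
    Tendsto (fun x : ℝ => Real.exp (-(3 * x ^ α))) atTop (𝓝 0) := by
  have h := exp_tend0 hα 1 (b := 3) (by norm_num)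
  simpa using h

theorem quad_tendE {α : ℝ} (hα : 0 < α) (a b d : ℝ) :
    Tendsto (fun x : ℝ => a + Real.exp (-(3 * x ^ α)) * b + Real.exp (-(3 * x ^ α)) ^ 2 * d) atTop
      (𝓝 a) := by
  have h1 := (exp3_tendE hα).mul_const b
  have h2 := ((exp3_tendE hα).pow 2).mul_const d
  have h3 := (tendsto_const_nhds (x := a)).add h1
  have h4 := h3.add h2
  simpa using h4

theorem poly_expE {α : ℝ} (hα : 0 < α) {b : ℝ} (hb : 0 < b) (K : ℝ) :
    Tendsto (fun x : ℝ => K * (x ^ 5 * Real.exp (-(b * x ^ α)))) atTop (𝓝 0) := by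
  have h := (exp_tend hα 5 hb).const_mul K
  rw [mul_zero] at h
  refine h.congr fun x => ?_
  have e : x ^ (5 : ℝ) = x ^ (5 : ℕ) := by norm_cast
  rw [e]

/-- All the inequalities for the ratio `R`. -/
structure ROkE (V0 T0 φ : V → V) (l q η α ε₀ R : ℝ) : Prop where
  hα : 0 < α
  big : 1000 ≤ R
  bigα : 1000 ≤ R ^ α
  α4 : R ^ α ≤ R ^ 4
  cnd : ∀ x, R ≤ x → Cnd α q x
  e1 : 17 / 4 < R ^ 2 * l
  b1 : -tri T0 V0 T0 / 2 < -tri (Tc T0 φ (Real.exp (-(3 * R ^ α)))) V0 (Tc T0 φ (Real.exp (-(3 * R ^ α))))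
  b2 : -tri (Tc T0 φ (Real.exp (-(3 * R ^ α)))) V0 (Tc T0 φ (Real.exp (-(3 * R ^ α))))
    < 2 * -tri T0 V0 T0
  i1 : ip (Tc T0 φ (Real.exp (-(3 * R ^ α)))) (Tc T0 φ (Real.exp (-(3 * R ^ α)))) < ip T0 T0 + 1
  d1 : Dir (Tc T0 φ (Real.exp (-(3 * R ^ α)))) (Tc T0 φ (Real.exp (-(3 * R ^ α)))) < Dir T0 T0 + 1
  e4 : 10000 * ((2 * -tri T0 V0 T0) ^ 2 * Nup ^ 2 / (ip V0 V0 * β0 * β0 ^ 2)) ≤ R ^ 2
  e5 : Dir V0 V0 / ip V0 V0 * (ip T0 T0 + 1 + Nup) / S0 ≤ R ^ 4
  e6 : (Dir T0 T0 + 1 + Dup) * Nup / (β0 * S0) ≤ R ^ 4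
  e7 : 4 * ((2 * -tri T0 V0 T0) ^ 2 * Nup) / (β0 * β0) ≤ Real.exp (R ^ α)
  e8 : 4 * ((ip T0 T0 + 1 + Nup) * β0 / ((-tri T0 V0 T0 / 2) ^ 2 * β0))
    * (R ^ 5 * Real.exp (-(0.7 * R ^ α))) ≤ 1 / 100
  e9 : (ip T0 T0 + 1 + Nup) * β0 / ((-tri T0 V0 T0 / 2) ^ 2 * β0)
    * (R ^ 5 * Real.exp (-(3 * R ^ α))) ≤ 1 / 1000000
  e10 : 16 ≤ R ^ η
  e11 : (2 : ℝ) ^ (q ^ 3) ≤ R ^ 2
  e12 : 17 / 4 / (2 : ℝ) ^ (-(q ^ 2)) ≤ R ^ 2
  e13 : 17 / 4 / ε₀ ≤ R ^ 2

theorem Src.exists_RE {q α : ℝ} (hα : 0 < α) (hα1 : α ≤ 1) (hαq : α * q < 5)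
    (S : Src U T0 φ l R1) {η : ℝ} (hη : 0 < η) (ε₀ : ℝ) :
    ∃ R : ℝ, ROkE U T0 φ l q η α ε₀ R := by
  have hl0 := S.l0
  have hb0 := S.b0
  obtain ⟨X, hX⟩ := (cnd_eventually (α := α) (γ := q) hα hαq).exists_forall_of_atTop
  have hp : ∀ (k : ℕ), k ≠ 0 → ∀ c : ℝ, ∀ᶠ x : ℝ in atTop, c ≤ x ^ k := fun k hk c =>
    (tendsto_pow_atTop hk).eventually_ge_atTop _
  have E1 := hp 2 two_ne_zero ((17 / 4 + 1) / l)
  have E2a := (quad_tendE hα (-tri T0 U T0) (-tri T0 U φ - tri φ U T0)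
    (-tri φ U φ)).eventually_const_lt (show -tri T0 U T0 / 2 < -tri T0 U T0 by linarith)
  have E2b := (quad_tendE hα (-tri T0 U T0) (-tri T0 U φ - tri φ U T0)
    (-tri φ U φ)).eventually_lt_const (show -tri T0 U T0 < 2 * -tri T0 U T0 by linarith)
  have E3a := (quad_tendE hα (ip T0 T0) (2 * ip T0 φ) (ip φ φ)).eventually_lt_const
    (show ip T0 T0 < ip T0 T0 + 1 by linarith)
  have E3b := (quad_tendE hα (Dir T0 T0) (2 * Dir T0 φ) (Dir φ φ)).eventually_lt_const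
    (show Dir T0 T0 < Dir T0 T0 + 1 by linarith)
  have E4 := hp 2 two_ne_zero (10000 * ((2 * -tri T0 U T0) ^ 2 * Nup ^ 2
    / (ip U U * β0 * β0 ^ 2)))
  have E5 := hp 4 four_ne_zero (Dir U U / ip U U * (ip T0 T0 + 1 + Nup) / S0)
  have E6 := hp 4 four_ne_zero ((Dir T0 T0 + 1 + Dup) * Nup / (β0 * S0))
  have E7 : ∀ᶠ x : ℝ in atTop,
      4 * ((2 * -tri T0 U T0) ^ 2 * Nup) / (β0 * β0) ≤ Real.exp (x ^ α) :=
    (Real.tendsto_exp_atTop.comp (tendsto_rpow_atTop hα)).eventually_ge_atTop _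
  have E8 := (poly_expE hα (b := 0.7) (by norm_num) (4 * ((ip T0 T0 + 1 + Nup) * β0
    / ((-tri T0 U T0 / 2) ^ 2 * β0)))).eventually_le_const (show (0 : ℝ) < 1 / 100 by norm_num)
  have E9 := (poly_expE hα (b := 3) (by norm_num) ((ip T0 T0 + 1 + Nup) * β0
    / ((-tri T0 U T0 / 2) ^ 2 * β0))).eventually_le_const
      (show (0 : ℝ) < 1 / 1000000 by norm_num)
  have E10 : ∀ᶠ x : ℝ in atTop, 16 ≤ x ^ η := (tendsto_rpow_atTop hη).eventually_ge_atTop _
  have E11 := hp 2 two_ne_zero ((2 : ℝ) ^ (q ^ 3))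
  have E12 := hp 2 two_ne_zero (17 / 4 / (2 : ℝ) ^ (-(q ^ 2)))
  have E13 := hp 2 two_ne_zero (17 / 4 / ε₀)
  have E14 : ∀ᶠ x : ℝ in atTop, 1000 ≤ x ^ α := (tendsto_rpow_atTop hα).eventually_ge_atTop _
  obtain ⟨R, ⟨⟨⟨⟨⟨⟨⟨⟨⟨⟨⟨⟨⟨⟨⟨e1, e2a⟩, e2b⟩, e3a⟩, e3b⟩, e4⟩, e5⟩, e6⟩, e7⟩, e8⟩, e9⟩, e10⟩, e11⟩,
    e12⟩, e13⟩, e14⟩, e15⟩ := ((((((((((((((((E1.and E2a).and E2b).and E3a).and E3b).and E4).and
      E5).and E6).and E7).and E8).and E9).and E10).and E11).and E12).and E13).and E14).and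
      (eventually_ge_atTop (max X 1000))).exists
  rw [← S.bT] at e2a e2b
  rw [← S.iT] at e3a
  rw [← S.DT] at e3b
  have hR1 : 1000 ≤ R := (le_max_right _ _).trans e15
  refine ⟨R, hα, hR1, e14, ?_, fun x hx => hX x (((le_max_left _ _).trans
    e15).trans hx), ?_, e2a, e2b, e3a, e3b, e4, e5, e6, e7, e8, e9, e10, e11, e12, e13⟩
  · have h1 : R ^ α ≤ R ^ (4 : ℝ) :=
      Real.rpow_le_rpow_of_exponent_le (by linarith) (by linarith)
    have e : R ^ (4 : ℝ) = R ^ (4 : ℕ) := by norm_cast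
    rwa [e] at h1
  rw [div_le_iff₀ hl0] at e1
  linarith

namespace Prt

variable {U V0 T0 φ : V → V} {l R1 lU s b : ℝ}

theorem preE {q η α ε₀ R : ℝ} (hR : ROkE V0 T0 φ l q η α ε₀ R) (hq : 1 < q) (hs : 1 ≤ s) :
    Pre α q (R * s) R :=
  ⟨hR.hα, hq, by nlinarith [hR.big], by linarith [hR.big], hR.cnd⟩

theorem lnkE (h : Prt U V0 T0 φ l R1 lU s b) {q η α ε₀ R : ℝ}
    (hR' : ROkE V0 T0 φ l q η α ε₀ R)
    (hq : 1 < q) {RU : ℝ} (hRU : ∀ x, U x ≠ 0 → ‖x‖ ≤ RU) :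
    Lnk (P0 U V0 b s) (dil s (Tc T0 φ (Real.exp (-(3 * R ^ α))))) (l / s ^ 2) (max R1 RU)
      (preE (s := s) hR' hq h.s1) (R ^ α)
      (Dir (Tc T0 φ (Real.exp (-(3 * R ^ α)))) (Tc T0 φ (Real.exp (-(3 * R ^ α))))) 0 1 ∧
    kapG ((preE (s := s) hR' hq h.s1).sc.Q (P0 U V0 b s)
      (dil s (Tc T0 φ (Real.exp (-(3 * R ^ α)))))) 1
      ≤ 2 * (ip T0 T0 + 1 + Nup) / -tri T0 V0 T0 / (b * s ^ 5) ∧
    Dir (P0 U V0 b s) (P0 U V0 b s) / ip (P0 U V0 b s) (P0 U V0 b s)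
      ≤ s ^ 4 * (Dir V0 V0 / ip V0 V0) := by
  have hβ := β0_pos
  have hS := S0_pos
  have hs := h.s0
  have hb := h.b0
  have hN := h.S.n0
  have hb0 := h.S.b0
  have hDV := Dir_nonneg' V0
  have hDU := Dir_nonneg' U
  have hUU := ip_nonneg U
  have hR := hR'.big
  have hR0 : 0 < R := by linarith
  have e4 := hR'.e4
  have e5 := hR'.e5
  have e6 := hR'.e6
  have e7 := hR'.e7
  have e8 := hR'.e8
  have e9 := hR'.e9
  have e2a := hR'.b1
  have e2b := hR'.b2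
  have e3a := hR'.i1
  have e3b := hR'.d1
  have hip0 := h.ip0
  have hDir0 := h.Dir0
  set hp := preE (s := s) hR' hq h.s1 with hpd
  set c := Real.exp (-(3 * R ^ α)) with hc
  set N := ip V0 V0 with hNd
  set D := Dir V0 V0 with hDd
  set b0 := -tri T0 V0 T0 with hbd
  set M1 := ip T0 T0 + 1 with hM1
  set M2 := Dir T0 T0 + 1 with hM2
  have hM1p : 0 < M1 := by
    have := ip_nonneg T0
    linarith
  have hM2p : 0 < M2 := by
    have := Dir_nonneg' T0
    linarith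
  have hcp : 0 < c := Real.exp_pos _
  have hbb := h.bb c
  have hcc := h.cc c
  have hd := h.dat c hRU
  set T := Tc T0 φ c with hT
  have cT : CF T := (h.S.dat c).ct
  have hσ0 : hp.sc.σ 0 = R * s := hp.sc.σ_zero
  have hl : 17 / 4 < hp.sc.σ 0 ^ 2 * (l / s ^ 2) := by
    have : hp.sc.σ 0 ^ 2 * (l / s ^ 2) = R ^ 2 * l := by
      rw [hσ0]
      field_simp
    rw [this]
    exact hR'.e1
  have hTT := ip_nonneg T
  have hDT := Dir_nonneg' T
  have iT : ip (dil s T) (dil s T) = ip T T := ip_dil _ _ hs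
  have dT : Dir (dil s T) (dil s T) = s ^ 4 * Dir T T := Dir_dil cT.smc cT.smc hs
  have hDup := Dup_nonneg hp.sc
  have n1 := hp.sc.nn_low 0
  have n2 := hp.sc.nn_up 0
  have n3 := hp.sc.nn_low 1
  have n4 := hp.sc.nn_up 1
  have n5 := hp.sc.dd_low 0
  simp only [zero_add] at n1 n2 n3 n4 n5
  rw [show (1 : ℕ) + 1 = 2 from rfl] at n3 n4
  have hNup : 0 < Nup := hβ.trans_le (n1.trans n2)
  have hRαp : 0 < R ^ α := Real.rpow_pos_of_pos hR0 _
  have hα4 := hR'.α4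
  have hα5 : R ^ α ≤ R ^ 5 := hα4.trans (pow_le_pow_right₀ (by linarith) (by norm_num))
  set Q := hp.sc.Q (P0 U V0 b s) (dil s T) with hQ
  have g1 : Bb Q 1 = b * (s ^ 5 * -tri T V0 T) := by
    rw [← hbb]
    exact Sc.bQ1 hd hl
  have g2 : Bb Q 2 = (R * s) ^ 5 * β0 := by
    rw [← hσ0]
    exact Sc.bQ2 hd hl
  have g3 : Cc Q 1 = b ^ 2 * (s ^ 5 * c) := by
    rw [← hcc]
    exact Sc.cQ1 hd hl
  have g4 : Nn Q 1 = ip U U + b ^ 2 * N := hip0
  have g5 : Nn Q 2 = ip T T + Nn hp.sc.P 1 := by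
    rw [← iT]
    exact Sc.nQ2 hd hl
  have g6 : Nn Q 3 = Nn hp.sc.P 2 := rfl
  have hR5 : 0 < R ^ 5 := by positivity
  -- bounds of `e`
  have ee : Ee Q 1
      = c * (ip T T + Nn hp.sc.P 1) * (R ^ 5 * β0) / ((-tri T V0 T) ^ 2 * Nn hp.sc.P 2) := by
    show Cc Q 1 * Nn Q 2 * Bb Q 2 / (Bb Q 1 ^ 2 * Nn Q 3) = _
    rw [g1, g2, g3, g5, g6]
    have hbp : -tri T V0 T ≠ 0 := by linarith
    have hnp : Nn hp.sc.P 2 ≠ 0 := by linarith
    have htp : tri T V0 T ≠ 0 := by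
      intro h9
      rw [h9] at hbp
      simp at hbp
    field_simp
  have hsq1 : (-tri T V0 T) ^ 2 ≤ (2 * b0) ^ 2 := pow_le_pow_left₀ (by linarith) e2b.le 2
  have hsq2 : (b0 / 2) ^ 2 ≤ (-tri T V0 T) ^ 2 := pow_le_pow_left₀ (by linarith) e2a.le 2
  have hbp : 0 < -tri T V0 T := by linarith
  have w1 : 0 < ip T T + Nn hp.sc.P 1 := by linarith
  have w2 : 0 < Nn hp.sc.P 2 := hβ.trans_le n3
  have w3 : 0 < (-tri T V0 T) ^ 2 := pow_pos hbp 2
  have eup : Ee Q 1 ≤ (M1 + Nup) * β0 / ((b0 / 2) ^ 2 * β0) * (R ^ 5 * c) := by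
    rw [ee]
    have e : (M1 + Nup) * β0 / ((b0 / 2) ^ 2 * β0) * (R ^ 5 * c)
        = c * (M1 + Nup) * (R ^ 5 * β0) / ((b0 / 2) ^ 2 * β0) := by ring
    rw [e]
    apply div_le_div₀ (by positivity) _ (by positivity)
    · exact mul_le_mul hsq2 n3 hβ.le (by positivity)
    · apply mul_le_mul_of_nonneg_right _ (by positivity)
      apply mul_le_mul_of_nonneg_left _ hcp.le
      linarith
  have elow : β0 * β0 / ((2 * b0) ^ 2 * Nup) * (R ^ 5 * c) ≤ Ee Q 1 := by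
    rw [ee]
    have e : β0 * β0 / ((2 * b0) ^ 2 * Nup) * (R ^ 5 * c)
        = c * β0 * (R ^ 5 * β0) / ((2 * b0) ^ 2 * Nup) := by ring
    rw [e]
    apply div_le_div₀ (by positivity) _ (mul_pos w3 w2)
    · exact mul_le_mul hsq1 n4 (hβ.le.trans n3) (by positivity)
    · apply mul_le_mul_of_nonneg_right _ (by positivity)
      apply mul_le_mul_of_nonneg_left _ hcp.le
      linarith
  have hep : 0 < Ee Q 1 := lt_of_lt_of_le (by positivity) elow
  have hquo : Dir (P0 U V0 b s) (P0 U V0 b s) / ip (P0 U V0 b s) (P0 U V0 b s)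
      ≤ s ^ 4 * (D / N) := by
    rw [hip0, hDir0, div_le_iff₀ (by positivity)]
    have h1 := h.hD
    have h2 : Dir U U ≤ s ^ 4 * (D / N) * ip U U := by
      have h3 : s ^ 4 * (D / N) * ip U U = s ^ 4 * D * ip U U / N := by ring
      rw [h3, le_div_iff₀ hN]
      exact h1
    have h4 : s ^ 4 * (D / N) * (b ^ 2 * N) = b ^ 2 * (s ^ 4 * D) := by
      field_simp
    linarith
  refine ⟨?_, ?_, hquo⟩
  · exact
    { hd := hd
      hl := hl
      hb := by
        rw [hbb]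
        positivity
      hc := by
        rw [hcc]
        positivity
      hL := hR'.bigα
      hL' := le_rfl
      h1 := by
        show Bb Q 1 ^ 2 * Nn Q 3 ^ 2 / (Nn Q 1 * Nn Q 2 * Bb Q 2 ^ 2)
            * (R ^ α) ^ 2 ≤ 1 / 10000
        rw [g1, g2, g4, g5, g6]
        have k1 : (b * (s ^ 5 * -tri T V0 T)) ^ 2 * Nn hp.sc.P 2 ^ 2
            / ((ip U U + b ^ 2 * N) * (ip T T + Nn hp.sc.P 1) * ((R * s) ^ 5 * β0) ^ 2)
            ≤ (b * (s ^ 5 * (2 * b0))) ^ 2 * Nup ^ 2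
              / ((b ^ 2 * N) * β0 * ((R * s) ^ 5 * β0) ^ 2) := by
          apply div_le_div₀ (by positivity) _ (by positivity)
          · apply mul_le_mul_of_nonneg_right _ (by positivity)
            apply mul_le_mul _ (by linarith) hβ.le (by positivity)
            linarith
          · have k3 : (b * (s ^ 5 * -tri T V0 T)) ^ 2 ≤ (b * (s ^ 5 * (2 * b0))) ^ 2 := by
              apply pow_le_pow_left₀ (by positivity)
              apply mul_le_mul_of_nonneg_left _ hb.le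
              exact mul_le_mul_of_nonneg_left e2b.le (by positivity)
            exact mul_le_mul k3 (pow_le_pow_left₀ (hβ.le.trans n3) n4 2) (sq_nonneg _)
              (sq_nonneg _)
        refine (mul_le_mul k1 (pow_le_pow_left₀ hRαp.le hα4 2) (by positivity)
          (by positivity)).trans ?_
        have k2 : (b * (s ^ 5 * (2 * b0))) ^ 2 * Nup ^ 2
            / ((b ^ 2 * N) * β0 * ((R * s) ^ 5 * β0) ^ 2) * (R ^ 4) ^ 2
            = (2 * b0) ^ 2 * Nup ^ 2 / (N * β0 * β0 ^ 2) / R ^ 2 := by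
          field_simp
        rw [k2, div_le_div_iff₀ (by positivity) (by norm_num)]
        linarith
      h2 := by
        refine hquo.trans ?_
        rw [iT, dT, le_div_iff₀ w1]
        rw [div_le_iff₀ hS] at e5
        rw [hσ0] at n5
        have k1 : D / N * (ip T T + Nn hp.sc.P 1) ≤ D / N * (M1 + Nup) :=
          mul_le_mul_of_nonneg_left (by linarith) (by positivity)
        have k2 : s ^ 4 * (D / N * (ip T T + Nn hp.sc.P 1)) ≤ s ^ 4 * (R ^ 4 * S0) :=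
          mul_le_mul_of_nonneg_left (k1.trans e5) (by positivity)
        have k3 : 0 ≤ s ^ 4 * Dir T T := by positivity
        have k4 : (R * s) ^ 4 * S0 = s ^ 4 * (R ^ 4 * S0) := by ring
        linarith
      hDT := by
        rw [dT, hσ0]
        apply mul_le_mul_of_nonneg_right _ hDT
        apply pow_le_pow_left₀ hs.le
        nlinarith
      h3 := by
        refine le_trans ?_ e6
        apply div_le_div_of_nonneg_right _ (by positivity)
        apply mul_le_mul_of_nonneg_right _ hNup.le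
        linarith
      hν := le_rfl
      ha0 := one_pos
      h4 := by simp
      h5 := by simp
      h6 := fun k => by
        have : 0 ≤ ∏ i ∈ Finset.range (k + 1), rh R q i ^ α :=
          Finset.prod_nonneg fun i _ => Real.rpow_nonneg (hp.rh_pos _).le _
        simpa using this
      h7 := by
        have k1 : Real.exp (4 * R ^ α) = Real.exp (R ^ α) * Real.exp (3 * R ^ α) := by
          rw [← Real.exp_add]
          congr 1
          ring
        have k2 : c * Real.exp (3 * R ^ α) = 1 := by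
          rw [hc, ← Real.exp_add]
          simp
        have k3 : 2 ≤ Real.exp (4 * R ^ α) := by
          have := Real.add_one_le_exp (4 * R ^ α)
          linarith [hR'.bigα]
        rw [div_le_iff₀ (by positivity)] at e7
        have k4 : 4 * R ^ 5 ≤ Ee Q 1 * Real.exp (4 * R ^ α) := by
          calc 4 * R ^ 5 = 4 * ((2 * b0) ^ 2 * Nup) / ((2 * b0) ^ 2 * Nup) * R ^ 5 := by
                field_simp
            _ ≤ Real.exp (R ^ α) * (β0 * β0) / ((2 * b0) ^ 2 * Nup) * R ^ 5 := by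
                apply mul_le_mul_of_nonneg_right _ hR5.le
                exact div_le_div_of_nonneg_right e7 (by positivity)
            _ = β0 * β0 / ((2 * b0) ^ 2 * Nup) * (R ^ 5 * c)
                * (Real.exp (R ^ α) * Real.exp (3 * R ^ α)) := by
                have : β0 * β0 / ((2 * b0) ^ 2 * Nup) * (R ^ 5 * c)
                  * (Real.exp (R ^ α) * Real.exp (3 * R ^ α)) = Real.exp (R ^ α) * (β0 * β0)
                    / ((2 * b0) ^ 2 * Nup) * R ^ 5 * (c * Real.exp (3 * R ^ α)) := by ring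
                rw [this, k2, mul_one]
            _ ≤ _ := by
                rw [k1]
                exact mul_le_mul_of_nonneg_right elow (by positivity)
        have k6 : 2 * Ee Q 1 ≤ Ee Q 1 * Real.exp (4 * R ^ α) := by
          rw [mul_comm]
          exact mul_le_mul_of_nonneg_left k3 hep.le
        linarith
      h8 := by
        have k1 : c * Real.exp (2.3 * R ^ α) = Real.exp (-(0.7 * R ^ α)) := by
          rw [hc, ← Real.exp_add]
          congr 1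
          ring
        calc 4 * Ee Q 1 * Real.exp (2.3 * R ^ α)
            ≤ 4 * ((M1 + Nup) * β0 / ((b0 / 2) ^ 2 * β0) * (R ^ 5 * c))
              * Real.exp (2.3 * R ^ α) := by
              apply mul_le_mul_of_nonneg_right _ (Real.exp_pos _).le
              exact mul_le_mul_of_nonneg_left eup (by norm_num)
          _ = 4 * ((M1 + Nup) * β0 / ((b0 / 2) ^ 2 * β0))
              * (R ^ 5 * (c * Real.exp (2.3 * R ^ α))) := by ring
          _ ≤ _ := by
              rw [k1]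
              exact e8
      h9 := by
        refine eup.trans ?_
        exact e9 }
  · show Nn Q 2 / Bb Q 1 ≤ _
    rw [g1, g5]
    have k1 : 2 * (M1 + Nup) / b0 / (b * s ^ 5) = (M1 + Nup) / (b * (s ^ 5 * (b0 / 2))) := by
      field_simp
    rw [k1]
    apply div_le_div₀ (by positivity) (by linarith) (by positivity)
    apply mul_le_mul_of_nonneg_left _ hb.le
    exact mul_le_mul_of_nonneg_left e2a.le (by positivity)

end Prt

end Pool.Agent.Run7.h407.G.X
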