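import Mathlib
import Pool.Agent.Run7.h407.D.Uc

/-!
The field phi of the file D/Uc.lean can be supported in the support of U.
-/

namespace Pool.Agent.Run7.h407.G.X

open Set Filter Topology MeasureTheory
open scoped ContDiff

/-- The space of the divergence-free fields supported in the support of `U`. -/
noncomputable def Ds (U : V → V) : Submodule ℝ (V → V) where
  carrier := {v | CF v ∧ (∀ x, dvg v x = 0) ∧ ∀ x, v x ≠ 0 → x ∈ tsupport U}
  add_mem' := fun {u v} hu hv => ⟨hu.1.add hv.1, fun x => by
    have := dvg_add hu.1 hv.1 x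
    show dvg (fun y => u y + v y) x = 0
    rw [this, hu.2.1, hv.2.1, add_zero], fun x hx => by
    by_cases h : u x = 0
    · apply hv.2.2 x
      intro h'
      apply hx
      show u x + v x = 0
      rw [h, h', add_zero]
    · exact hu.2.2 x h⟩
  zero_mem' := ⟨⟨contDiff_const, HasCompactSupport.zero⟩, fun x => by
    show ∑ i, pd i (fun _ => (0 : ℝ)) x = 0
    simp_rw [pd_const]
    simp, fun x hx => absurd rfl hx⟩
  smul_mem' := fun c u hu => ⟨hu.1.smul c, fun x => by
    have := dvg_smul c hu.1 x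
    show dvg (fun y => c • u y) x = 0
    rw [this, hu.2.1, mul_zero], fun x hx => hu.2.2 x fun h => hx (by
    show c • u x = 0
    rw [h, smul_zero])⟩

variable {U : V → V}

/-- Restriction of a functional. -/
noncomputable def rsd {f : (V → V) → ℝ} (hf : LinF f) : Ds U →ₗ[ℝ] ℝ where
  toFun := fun v => f v
  map_add' := fun u v => hf.add _ _ u.2.1 v.2.1
  map_smul' := fun c u => hf.smul c _ u.2.1

theorem altd (hU : CF U) : (∃ φ ∈ Ds U, ip U φ = 0 ∧ Dir U φ = 0 ∧ tri U U φ ≠ 0) ∨
    ∃ α β : ℝ, ∀ φ ∈ Ds U, tri U U φ = α * ip U φ + β * Dir U φ := by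
  by_cases h : ∃ φ ∈ Ds U, ip U φ = 0 ∧ Dir U φ = 0 ∧ tri U U φ ≠ 0
  · exact Or.inl h
  · right
    push Not at h
    have h1 : ⨅ i, LinearMap.ker ((![rsd (lin_ip hU), rsd (lin_Dir hU)] :
        Fin 2 → (Ds U →ₗ[ℝ] ℝ)) i) ≤ LinearMap.ker (rsd (lin_tri hU)) := by
      intro v hv
      rw [Submodule.mem_iInf] at hv
      have a1 := hv 0
      have a2 := hv 1
      rw [LinearMap.mem_ker] at a1 a2 ⊢
      exact h v v.2 a1 a2
    have h2 := mem_span_of_iInf_ker_le_ker h1
    rw [Submodule.mem_span_range_iff_exists_fun] at h2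
    obtain ⟨c, hc⟩ := h2
    refine ⟨c 0, c 1, fun φ hφ => ?_⟩
    have h3 := congrArg (fun f => f ⟨φ, hφ⟩) hc
    simp only [Fin.sum_univ_two] at h3
    exact h3.symm


theorem ts_adv {x : V} (hx : x ∉ tsupport U) : ∀ᶠ y in 𝓝 x, adv U U y = 0 := by
  have h1 := (notMem_tsupport_iff_eventuallyEq.1 hx).eventually_nhds
  filter_upwards [h1] with y hy
  exact adv_zero (Or.inl hy)

theorem ts_lap {x : V} (hx : x ∉ tsupport U) : ∀ᶠ y in 𝓝 x, lap U y = 0 := by
  have h1 := (notMem_tsupport_iff_eventuallyEq.1 hx).eventually_nhds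
  filter_upwards [h1] with y hy
  exact lap_zero hy

theorem om_ev_zero {F : V → V} {x : V} (h : ∀ᶠ y in 𝓝 x, F y = 0) (i : Fin 3) :
    om i F x = 0 := by
  unfold om
  rw [pd_ev_zero h, pd_ev_zero h, sub_zero]

theorem exists_phi2 (hU : CF U) (hd : ∀ x, dvg U x = 0) (hn : 0 < ip U U)
    (hns : ∃ i x, om i (adv U U) x ≠ 0) :
    ∃ φ, CF φ ∧ (∀ x, dvg φ x = 0) ∧ (∀ x, φ x ≠ 0 → x ∈ tsupport U) ∧ ip U φ = 0 ∧
      Dir U φ = 0 ∧ tri U U φ = -1 := by
  rcases altd hU with ⟨φ, ⟨h1, h2, h3⟩, h4, h5, h6⟩ | ⟨α, β, h⟩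
  · refine ⟨fun x => (-(tri U U φ)⁻¹) • φ x, h1.smul _, fun x => ?_, fun x hx => ?_, ?_, ?_, ?_⟩
    · rw [dvg_smul _ h1, h2, mul_zero]
    · apply h3 x
      intro h7
      apply hx
      show (-(tri U U φ)⁻¹) • φ x = 0
      rw [h7, smul_zero]
    · have := (lin_ip hU).smul (-(tri U U φ)⁻¹) φ h1
      exact this.trans (by rw [h4, mul_zero])
    · have := (lin_Dir hU).smul (-(tri U U φ)⁻¹) φ h1
      exact this.trans (by rw [h5, mul_zero])
    · rw [tri_smul_right]
      field_simp
  exfalso
  have cA := adv_CF hU hU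
  have cL := lap_CF hU
  set G : Fin 3 → V → ℝ := fun i x => om i (adv U U) x - α * om i U x + β * om i (lap U) x
    with hG
  have sG : ∀ i, Sm (G i) := fun i =>
    ((om_sm cA i).sub (contDiff_const.mul (om_sm hU i))).add (contDiff_const.mul (om_sm cL i))
  have cG : ∀ i, HasCompactSupport (G i) := fun i =>
    ((om_cs cA i).sub (om_cs hU i).mul_left).add (om_cs cL i).mul_left
  have tG : ∀ i, tsupport (G i) ⊆ tsupport U := by
    intro i
    apply closure_minimal _ (isClosed_tsupport U)
    intro x hx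
    by_contra hcon
    apply hx
    rw [hG]
    simp only
    have h0 := notMem_tsupport_iff_eventuallyEq.1 hcon
    rw [om_ev_zero (ts_adv hcon), om_ev_zero (ts_lap hcon),
      om_ev_zero (F := U) h0]
    ring
  have hGz : ∀ i x, G i x = 0 := by
    intro i
    have hmem : Cu i (G i) ∈ Ds U :=
      ⟨Cu_CF (sG i) (cG i) i, Cu_dvg (sG i) i, fun x hx => tG i (Cu_supp hx)⟩
    have h1 := h _ hmem
    have e1 : tri U U (Cu i (G i)) = -∫ x, G i x * om i (adv U U) x := by
      rw [← ip_adv]
      exact ip_Cu cA (sG i) (cG i) i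
    have e2 : ip U (Cu i (G i)) = -∫ x, G i x * om i U x := ip_Cu hU (sG i) (cG i) i
    have e3 : Dir U (Cu i (G i)) = ∫ x, G i x * om i (lap U) x := by
      have h2 := ip_lap hU (Cu_CF (sG i) (cG i) i)
      rw [ip_Cu cL (sG i) (cG i) i] at h2
      linarith
    rw [e1, e2, e3] at h1
    have i1 : Integrable (fun x => G i x * om i (adv U U) x) volume :=
      integrable_of_cs (sG i).continuous (cG i) (om_sm cA i).continuous
    have i2 : Integrable (fun x => G i x * om i U x) volume :=
      integrable_of_cs (sG i).continuous (cG i) (om_sm hU i).continuous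
    have i3 : Integrable (fun x => G i x * om i (lap U) x) volume :=
      integrable_of_cs (sG i).continuous (cG i) (om_sm cL i).continuous
    have e4 : ∫ x, G i x ^ 2 = 1 * (∫ x, G i x * om i (adv U U) x)
        + (-α) * (∫ x, G i x * om i U x) + β * (∫ x, G i x * om i (lap U) x)
        + 0 * ∫ x, G i x * om i U x := by
      rw [← Carl.lin4 _ _ _ _ i1 i2 i3 i2]
      congr 1
      funext x
      rw [hG]
      ring
    intro x
    apply Carl.eq_zero_of_sq (sG i) (cG i) _ x
    rw [e4]
    linarith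
  by_cases hβ : β = 0
  · have h1 := h U ⟨hU, hd, fun x hx => subset_tsupport U hx⟩
    rw [tri_self hU hd hU, hβ, zero_mul, add_zero] at h1
    have hα : α = 0 := by
      rcases mul_eq_zero.1 h1.symm with h2 | h2
      · exact h2
      · linarith
    obtain ⟨i, x, hx⟩ := hns
    apply hx
    have h2 := hGz i x
    rw [hG] at h2
    simp only at h2
    rw [hα, hβ] at h2
    linarith
  · -- the case of a damped stationary viscous flow
    choose M0 m0 b0 using fun k : Fin 3 => cs_bound' (hU.smc k) (hU.csc k)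
    choose M1 m1 b1 using fun (i j : Fin 3) =>
      cs_bound' ((hU.smc i).pd j) (pd_cs (hU.csc i) j)
    set A0 := ∑ k, M0 k with hA0
    set A1 := ∑ i, ∑ j, M1 i j with hA1
    have hA0' : ∀ k, M0 k ≤ A0 := fun k =>
      Finset.single_le_sum (f := M0) (fun k _ => m0 k) (Finset.mem_univ k)
    have hA1' : ∀ i j, M1 i j ≤ A1 := by
      intro i j
      refine (Finset.single_le_sum (f := fun j => M1 i j) (fun j _ => m1 i j)
        (Finset.mem_univ j)).trans ?_
      exact Finset.single_le_sum (f := fun i => ∑ j, M1 i j)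
        (fun i _ => Finset.sum_nonneg fun j _ => m1 i j) (Finset.mem_univ i)
    have hA1p : 0 ≤ A1 := (m1 0 0).trans (hA1' 0 0)
    have hβa : 0 < |β| := abs_pos.2 hβ
    have hA0p : 0 ≤ A0 := (m0 0).trans (hA0' 0)
    have key : ∀ i x, |Carl.Lp (om i U) x|
        ≤ (|α| + A0 + 6 * A1) / |β| * (∑ m, |om m U x| + ∑ m, ∑ k, |pd k (om m U) x|) := by
      intro i x
      have h1 := hGz i x
      rw [hG] at h1
      simp only at h1
      rw [om_lap hU] at h1
      set S1 := ∑ m, |om m U x| with hS1
      set S2 := ∑ m, ∑ k, |pd k (om m U) x| with hS2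
      have hS10 : 0 ≤ S1 := Finset.sum_nonneg fun m _ => abs_nonneg _
      have hS20 : 0 ≤ S2 := Finset.sum_nonneg fun m _ => Finset.sum_nonneg fun k _ => abs_nonneg _
      have hom : |om i U x| ≤ S1 :=
        Finset.single_le_sum (f := fun m => |om m U x|) (fun m _ => abs_nonneg _)
          (Finset.mem_univ i)
      have hgr : ∑ k, |pd k (om i U) x| ≤ S2 :=
        Finset.single_le_sum (f := fun m => ∑ k, |pd k (om m U) x|)
          (fun m _ => Finset.sum_nonneg fun k _ => abs_nonneg _) (Finset.mem_univ i)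
      have h2 : |om i (adv U U) x| ≤ A0 * S2 + 6 * A1 * S1 := by
        rw [om_adv hU]
        refine (abs_add_le _ _).trans (add_le_add ?_ ?_)
        · refine (Finset.abs_sum_le_sum_abs _ _).trans ?_
          have h3 : ∑ k, |U x k * pd k (om i U) x| ≤ ∑ k, A0 * |pd k (om i U) x| := by
            apply Finset.sum_le_sum
            intro k _
            rw [abs_mul]
            exact mul_le_mul_of_nonneg_right ((b0 k x).trans (hA0' k)) (abs_nonneg _)
          rw [← Finset.mul_sum] at h3
          exact h3.trans (mul_le_mul_of_nonneg_left hgr hA0p)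
        · refine (Finset.abs_sum_le_sum_abs _ _).trans ?_
          have h3 : ∑ j, |wg U (i + 1) j x * pd j (fun y => U y i) x
              - wg U i j x * pd j (fun y => U y (i + 1)) x| ≤ ∑ _j : Fin 3, 2 * (S1 * A1) := by
            apply Finset.sum_le_sum
            intro j _
            refine (abs_sub _ _).trans ?_
            rw [abs_mul, abs_mul]
            have p1 := mul_le_mul (wg_le U (i + 1) j x) ((b1 i j x).trans (hA1' i j))
              (abs_nonneg _) hS10
            have p2 := mul_le_mul (wg_le U i j x) ((b1 (i + 1) j x).trans (hA1' (i + 1) j))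
              (abs_nonneg _) hS10
            linarith
          simp only [Finset.sum_const, Finset.card_univ, Fintype.card_fin, nsmul_eq_mul,
            Nat.cast_ofNat] at h3
          linarith
      rw [div_mul_eq_mul_div, le_div_iff₀ hβa]
      have h4 : |Carl.Lp (om i U) x| * |β| = |α * om i U x - om i (adv U U) x| := by
        rw [← abs_mul]
        congr 1
        linarith
      rw [h4]
      refine (abs_sub _ _).trans ?_
      rw [abs_mul]
      have h5 := mul_le_mul_of_nonneg_left hom (abs_nonneg α)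
      have h6 : 0 ≤ |α| * S2 := mul_nonneg (abs_nonneg _) hS20
      have h7 : 0 ≤ A0 * S1 := mul_nonneg hA0p hS10
      have h8 : 0 ≤ 6 * A1 * S2 := by positivity
      nlinarith
    have h9 := Carl.uc (fun i => om i U) (fun i => om_sm hU i) (fun i => om_cs hU i) key
    have h10 : ∀ x, U x = 0 := fun x => zero_of_om hU hd h9 x
    have h11 : ip U U = 0 := by
      unfold ip
      simp [h10]
    linarith


end Pool.Agent.Run7.h407.G.X
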