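import Mathlib
import Pool.Agent.Run7.h407.DE.ChoiceE
import Pool.Agent.Run7.h407.D.NSq
import Pool.Agent.Run7.h407.DE.Uc2

/-!
The Euler equations on the whole space: the chain with a given first field.
-/

namespace Pool.Agent.Run7.h407.G.X

open Set Filter Topology MeasureTheory
open scoped ContDiff

/-- Everything about the chain on the whole space which is needed on the torus. -/
structure ECh (δ q ε₀ A₀ : ℝ) (U : V → V) (Q : ℕ → V → V) : Prop where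
  one : Q 1 = U
  chn : ∃ (lo hi : ℕ → ℝ) (R : ℝ), ChN Q lo hi R
  supp : ∀ n x, Q n x ≠ 0 → x ∈ tsupport U ∨ ‖x‖ ≤ ε₀
  ball : ∀ n, Sb ((2 : ℝ) ^ (-(q ^ (n + 2)))) (GA Q (n + 3)) ∧
    Sb ((2 : ℝ) ^ (-(q ^ (n + 2)))) (GB Q (n + 3))
  sol : ∀ a > 0, ∃ Tb, 0 < Tb ∧ Tb ≤ A₀ / a ∧ ∃ u : ℝ → V → V, (∀ x, u 0 x = a • U x) ∧
    ContDiffOn ℝ ∞ (fun z : ℝ × V => u z.1 z.2) (Ico 0 Tb ×ˢ univ) ∧
    (∀ t ∈ Ico 0 Tb, CF (u t) ∧ ∃ c, Mem Q c (u t)) ∧
    (∀ t ∈ Ioo 0 Tb, ∀ v, Con 0 Q v → ∫ x, ∑ i, residual 0 u t x i * v x i = 0) ∧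
    (∃ C, ∀ t ∈ Ico 0 Tb, ∀ x, ‖u t x‖ ≤ C) ∧
    (∃ C, ∀ t ∈ Ico 0 Tb, ∀ x i j, |pd j (fun y => u t y i) x| * ‖x‖ ^ δ ≤ C) ∧
    ∀ M, ∀ᶠ t in 𝓝[<] Tb, ∃ x : V, ‖x‖ ≤ ε₀ ∧ M < curl2 (u t) x

theorem ECh.mono {δ q ε₀ A₀ A₁ : ℝ} {U : V → V} {Q : ℕ → V → V} (h : ECh δ q ε₀ A₀ U Q)
    (hA : A₀ ≤ A₁) : ECh δ q ε₀ A₁ U Q :=
  { one := h.one, chn := h.chn, supp := h.supp, ball := h.ball
    sol := fun a ha => by
      obtain ⟨Tb, h1, h2, h3⟩ := h.sol a ha
      exact ⟨Tb, h1, h2.trans (div_le_div_of_nonneg_right hA ha.le), h3⟩ }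

variable {U T : V → V} {l R1 : ℝ}

theorem Lnk.ech {α q s0 R L0 DT : ℝ} {h : Pre α q s0 R} (k0 : Lnk U T l R1 h L0 DT 0 1)
    {δ ε₀ : ℝ} (hδ : 0 < δ) (hT : ∀ x, T x ≠ 0 → x ∈ tsupport U ∨ ‖x‖ ≤ ε₀)
    (hε : 17 / 4 / s0 ^ 2 ≤ ε₀)
    (hs1 : 17 / 4 / s0 ^ 2 ≤ (2 : ℝ) ^ (-(q ^ 2))) (hR2 : (2 : ℝ) ^ (q ^ 3) ≤ R ^ 2)
    (h16a : 16 ≤ R ^ (2 * 0 - q * (α * q - 2))) (h16b : 16 ≤ R ^ (2 * δ - q * (α * q))) :
    ECh δ q ε₀ (9 * L0 * kapG (h.sc.Q U T) 1) U (h.sc.Q U T) := by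
  have hL := k0.hL
  have hch := Sc.chnQ k0.hd k0.hl
  have hs0 := h.s0_pos
  have hσ0 : h.sc.σ 0 = s0 := h.sc.σ_zero
  have hsb : ∀ {n k : ℕ}, n ≤ k → Sb ((2 : ℝ) ^ (-(q ^ n))) (h.sc.P k) :=
    fun hk => h.sb hs1 hR2 hk
  have hP : ∀ n x, h.sc.P n x ≠ 0 → ‖x‖ ≤ ε₀ := fun n x hx =>
    (h.sc.supp_ball hx).trans ((h.hi_le0 n).trans hε)
  set κ := kapG (h.sc.Q U T) 1 with hκdef
  have hκ : 0 < κ := k0.kap1_pos
  refine ⟨rfl, ⟨_, _, _, hch⟩, fun n x hx => ?_, fun n => ⟨?_, ?_⟩, fun a ha => ?_⟩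
  · match n with
    | 0 => exact absurd rfl hx
    | 1 => exact Or.inl (subset_tsupport U hx)
    | 2 =>
      by_cases hTx : T x = 0
      · right
        apply hP 1 x
        intro h1
        apply hx
        show T x + h.sc.P 1 x = 0
        rw [hTx, h1, add_zero]
      · exact hT x hTx
    | m + 3 => exact Or.inr (hP (m + 2) x hx)
  · exact sb_A (P := h.sc.P) (j := n + 2) (hsb le_rfl) (hsb (by omega)) (hsb (by omega))
  · exact sb_B (P := h.sc.P) (j := n + 2) (hsb (by omega)) (hsb (by omega))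
  have hL0 : 0 < L0 := by linarith
  have ha0 : 0 < a / κ := by positivity
  have k := k0.change le_rfl ha0 (by simpa using ha0.le) (by simpa using ha0.le) (fun m => by
    have : 0 ≤ ∏ i ∈ Finset.range (m + 1), rh R q i ^ α :=
      Finset.prod_nonneg fun i _ => Real.rpow_nonneg (h.rh_pos _).le _
    have h2 : 0 ≤ a / κ * ∏ i ∈ Finset.range (m + 1), rh R q i ^ α := mul_nonneg ha0.le this
    simpa using h2)
  have hg := Sc.goodQ (c := h.sc) (h.sc.wgt h.stp) k.hd k.hl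
  obtain ⟨Tb, A, S⟩ := exists_sol k.par k.e0
  have hTF := hg.TF k.pw S
  have hinit : ∀ x, vel (h.sc.Q U T) (cofG (h.sc.Q U T) A) 0 x = a • U x := by
    intro x
    rw [velG_init S x]
    show (κ * (a / κ)) • U x = a • U x
    congr 1
    field_simp
  refine ⟨Tb, S.Tpos, ?_, vel (h.sc.Q U T) (cofG (h.sc.Q U T) A), hinit, hTF.sm,
    fun t ht => ⟨hTF.slice_CF ht, _, hg.mem k.pw S ht⟩,
    fun t ht v hv => hg.test k.fit k.pw S ht hv, ?_, k.grad_bd S hδ h16b, fun M => ?_⟩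
  · refine S.Tle.trans ?_
    show 9 * L0 / (a / κ) ≤ 9 * L0 * κ / a
    apply le_of_eq
    field_simp
  · obtain ⟨C, hC⟩ := k.vel_bd S le_rfl h16a
    refine ⟨C, fun t ht x => ?_⟩
    have := hC t ht x
    rwa [Real.rpow_zero, mul_one] at this
  · filter_upwards [k.curl_blow S M] with t ht
    obtain ⟨x, h1, h2⟩ := ht
    refine ⟨x, ?_, h2⟩
    rw [hσ0] at h1
    have h3 : ‖x‖ ≤ 17 / 4 / s0 ^ 2 := by
      rw [le_div_iff₀ (by positivity)]
      linarith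
    exact h3.trans hε

/-- Parameters for the Euler equations. -/
theorem exists_alpha {δ q : ℝ} (hδ : 0 < δ) (hq : 1 < q) : ∃ α η : ℝ, 0 < α ∧ α ≤ 1 ∧
    α * q < 5 ∧ 0 < η ∧ η ≤ 2 * 0 - q * (α * q - 2) ∧ η ≤ 2 * δ - q * (α * q) := by
  have hq0 : 0 < q := by linarith
  set α : ℝ := min (1 / q) (δ / q ^ 2) with hα
  have hα0 : 0 < α := lt_min (by positivity) (by positivity)
  have hα1 : α * q ≤ 1 := by
    have h1 : α ≤ 1 / q := min_le_left _ _
    calc α * q ≤ 1 / q * q := mul_le_mul_of_nonneg_right h1 hq0.le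
      _ = 1 := by field_simp
  have hα2 : q * (α * q) ≤ δ := by
    have h1 : α ≤ δ / q ^ 2 := min_le_right _ _
    calc q * (α * q) = α * q ^ 2 := by ring
      _ ≤ δ / q ^ 2 * q ^ 2 := mul_le_mul_of_nonneg_right h1 (by positivity)
      _ = δ := by field_simp
  refine ⟨α, min (2 * 0 - q * (α * q - 2)) (2 * δ - q * (α * q)), hα0, ?_, by linarith,
    lt_min (by nlinarith) (by linarith), min_le_left _ _, min_le_right _ _⟩
  have h1 : α ≤ 1 / q := min_le_left _ _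
  refine h1.trans ?_
  rw [div_le_one hq0]
  exact hq.le

/-- The chain for the perturbed fields. -/
theorem Src.echain {V0 T0 φ : V → V} (S : Src V0 T0 φ l R1)
    {δ q ε₀ : ℝ} (hδ : 0 < δ) (hq : 1 < q) (hε : 0 < ε₀) : ∃ A₀ : ℝ, 0 < A₀ ∧
      ∀ (U : V → V) (lU s b : ℝ), Prt U V0 T0 φ l R1 lU s b →
      (∀ x, T0 (s ^ 2 • x) ≠ 0 ∨ φ (s ^ 2 • x) ≠ 0 →
        x ∈ tsupport (P0 U V0 b s) ∨ ‖x‖ ≤ ε₀) →
      ∃ Q, ECh δ q ε₀ (A₀ / (b * s ^ 5)) (P0 U V0 b s) Q := by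
  obtain ⟨α, η, hα, hα1, hαq, hη, hη1, hη2⟩ := exists_alpha hδ hq
  obtain ⟨R, hR⟩ := S.exists_RE (q := q) hα hα1 hαq hη ε₀
  have hβ := β0_pos
  have hb0 := S.b0
  have hRb := hR.big
  have hp1 := Prt.preE (s := 1) hR hq le_rfl
  have hNup : 0 < Nup := hβ.trans_le ((hp1.sc.nn_low 0).trans (hp1.sc.nn_up 0))
  have hM1 : 0 < ip T0 T0 + 1 + Nup := by
    have := ip_nonneg T0
    linarith
  set K := 2 * (ip T0 T0 + 1 + Nup) / -tri T0 V0 T0 with hK
  have hKp : 0 < K := by positivity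
  have hRα : 0 < R ^ α := by linarith [hR.bigα]
  have hR1 : 1 ≤ R := by linarith
  refine ⟨9 * R ^ α * K, by positivity, fun U lU s b P hT => ?_⟩
  obtain ⟨RU, hRU⟩ : ∃ R, ∀ x, U x ≠ 0 → ‖x‖ ≤ R := by
    obtain ⟨R, hR⟩ := P.cu.cs.isCompact.isBounded.exists_norm_le
    exact ⟨R, fun x hx => hR x (subset_tsupport U hx)⟩
  obtain ⟨hL, hκ, -⟩ := P.lnkE hR hq hRU
  have hs := P.s0
  have hb := P.b0
  have hs1 := P.s1
  have hRs : R ^ 2 ≤ (R * s) ^ 2 := pow_le_pow_left₀ (by linarith) (by nlinarith) 2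
  have hsup : ∀ {m : ℝ}, 0 < m → 17 / 4 / m ≤ R ^ 2 → 17 / 4 / (R * s) ^ 2 ≤ m := by
    intro m hm h1
    rw [div_le_iff₀ hm] at h1
    rw [div_le_iff₀ (by positivity)]
    nlinarith
  have h2 : (0 : ℝ) < 2 ^ (-(q ^ 2)) := by positivity
  have he := hL.ech hδ (ε₀ := ε₀) (fun x hx => hT x (by
      have h3 : Tc T0 φ (Real.exp (-(3 * R ^ α))) (s ^ 2 • x) ≠ 0 := by
        intro h4
        apply hx
        show s ^ 3 • Tc T0 φ (Real.exp (-(3 * R ^ α))) (s ^ 2 • x) = 0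
        rw [h4, smul_zero]
      by_cases h5 : T0 (s ^ 2 • x) = 0
      · right
        intro h6
        apply h3
        show T0 (s ^ 2 • x) + _ • φ (s ^ 2 • x) = 0
        rw [h5, h6, smul_zero, add_zero]
      · exact Or.inl h5)) (hsup hε hR.e13) (hsup h2 hR.e12) hR.e11
    (hR.e10.trans (Real.rpow_le_rpow_of_exponent_le hR1 hη1))
    (hR.e10.trans (Real.rpow_le_rpow_of_exponent_le hR1 hη2))
  refine ⟨_, he.mono ?_⟩
  rw [mul_div_assoc]
  exact mul_le_mul_of_nonneg_left hκ (by positivity)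

theorem tsupport_sub {V0 : V → V} {l R1 : ℝ} (h : ∀ x, V0 x ≠ 0 → l ≤ ‖x‖ ∧ ‖x‖ ≤ R1) {x : V}
    (hx : x ∈ tsupport V0) : l ≤ ‖x‖ ∧ ‖x‖ ≤ R1 := by
  have h2 : tsupport V0 ⊆ {y | l ≤ ‖y‖} ∩ {y | ‖y‖ ≤ R1} :=
    closure_minimal (fun y hy => h y hy) ((isClosed_le continuous_const continuous_norm).inter
      (isClosed_le continuous_norm continuous_const))
  exact h2 hx

/-- Sources supported in the support of the field. -/
theorem exists_src2 (hU : CF U) (hd : ∀ x, dvg U x = 0) (ha : Aw0 U) (hn : 0 < ip U U)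
    {φ : V → V} (f1 : CF φ) (f2 : ∀ x, dvg φ x = 0) (f3 : ∀ x, φ x ≠ 0 → x ∈ tsupport U)
    (f4 : ip U φ = 0) (f5 : Dir U φ = 0) (f6 : tri U U φ = -1) :
    ∃ (T0 : V → V) (l R1 : ℝ), Src U T0 φ l R1 ∧ ∀ x, T0 x ≠ 0 → x ∈ tsupport U := by
  obtain ⟨T0, t1, t2, t3, t4, t5, t6, t7⟩ := exists_T0 hU hd hn
  obtain ⟨a, ap, az⟩ := ha
  obtain ⟨r, hr⟩ := hU.cs.isCompact.isBounded.exists_norm_le
  have hsu : ∀ x, U x ≠ 0 → a ≤ ‖x‖ ∧ ‖x‖ ≤ max a r := fun x hx => by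
    refine ⟨?_, (hr x (subset_tsupport U hx)).trans (le_max_right _ _)⟩
    by_contra hcon
    push Not at hcon
    exact hx (az x hcon)
  refine ⟨T0, a, max a r,
    { l0 := ap, lR := le_max_left _ _, cu := hU, du := hd, ct := t1, dt := t2, cf := f1, df := f2,
      su := hsu, st := fun x hx => tsupport_sub hsu (t3 x hx),
      sf := fun x hx => tsupport_sub hsu (f3 x hx),
      n0 := hn, iut := t5, dut := t6, tut := t7, b0 := t4, iuf := f4, duf := f5, tuf := f6 }, t3⟩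

theorem ip_pos_of_om' (hU : CF U) (h : ∃ i x, om i (adv U U) x ≠ 0) : 0 < ip U U := by
  by_contra hcon
  push Not at hcon
  have hz : ∀ x, U x = 0 := by
    intro x
    funext i
    apply Carl.eq_zero_of_sq (hU.smc i) (hU.csc i) _ x
    refine le_trans ?_ hcon
    unfold ip
    apply integral_mono
    · have := integrable_of_cs (hU.smc i).continuous (hU.csc i) (hU.smc i).continuous
      refine this.congr (Eventually.of_forall fun y => ?_)
      show U y i * U y i = U y i ^ 2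
      ring
    · exact ip_int hU.sm.continuous hU
    · intro y
      show U y i ^ 2 ≤ ∑ i, U y i * U y i
      have h1 : U y i * U y i ≤ ∑ i, U y i * U y i :=
        Finset.single_le_sum (f := fun i => U y i * U y i) (fun i _ => mul_self_nonneg _)
          (Finset.mem_univ i)
      nlinarith
  obtain ⟨i, x, hx⟩ := h
  apply hx
  apply om_ev_zero
  exact Eventually.of_forall fun y => adv_zero (Or.inl (Eventually.of_forall hz))

/-- Every datum which is not a steady flow. -/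
theorem eA (hU : CF U) (hd : ∀ x, dvg U x = 0) (ha : Aw0 U) (hns : ∃ i x, om i (adv U U) x ≠ 0)
    {δ q ε₀ : ℝ} (hδ : 0 < δ) (hq : 1 < q) (hε : 0 < ε₀) :
    ∃ (A₀ : ℝ) (Q : ℕ → V → V), 0 < A₀ ∧ ECh δ q ε₀ A₀ U Q := by
  have hn := ip_pos_of_om' hU hns
  obtain ⟨φ, f1, f2, f3, f4, f5, f6⟩ := exists_phi2 hU hd hn hns
  obtain ⟨T0, l, R1, S, hs⟩ := exists_src2 hU hd ha hn f1 f2 f3 f4 f5 f6
  obtain ⟨A₀, hA, H⟩ := S.echain hδ hq hε
  have hR1 : 0 < R1 := S.l0.trans_le S.lR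
  have e0 : P0 (fun _ => 0) U 1 1 = U := by
    funext x
    show (0 : V) + (1 : ℝ) • dil 1 U x = _
    rw [dil_one, one_smul, zero_add]
  have hP : Prt (fun _ => 0) U T0 φ l R1 (R1 + 1) 1 1 :=
    { S := S
      cu := ⟨contDiff_const, HasCompactSupport.zero⟩
      du := fun x => Finset.sum_eq_zero fun i _ => pd_const _ _ _
      zu := fun x _ => rfl
      s1 := le_rfl
      sR := by linarith
      b0 := one_pos
      hD := by
        have h1 : Dir (fun _ : V => (0 : V)) (fun _ => 0) = 0 := by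
          apply Dir_zero_of
          intro x
          exact Or.inl (Eventually.of_forall fun _ => rfl)
        have h2 : ip (fun _ : V => (0 : V)) (fun _ => 0) = 0 := by
          apply ip_zero_of'
          intro x
          exact Or.inl rfl
        rw [h1, h2]
        simp }
  obtain ⟨Q, hQ⟩ := H _ _ _ _ hP (fun x hx => by
    rw [e0]
    rw [one_pow, one_smul] at hx
    exact Or.inl (hx.elim (fun h => hs x h) (fun h => f3 x h)))
  rw [e0] at hQ
  exact ⟨A₀, Q, hA, hQ.mono (by rw [one_mul, one_pow, div_one])⟩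

/-- Hölder bounds of a rescaled field. -/
theorem dil_holder {F : V → V} (hF : CF F) {β : ℝ} (hβ0 : 0 < β) (hβ1 : β < 1) :
    ∃ C, 0 < C ∧ ∀ s ≥ 1, ∀ b > 0, (∀ x, ‖b • dil s F x‖ ≤ C * (b * s ^ (3 + 2 * β))) ∧
      ∀ x y, ‖b • dil s F x - b • dil s F y‖ ≤ C * (b * s ^ (3 + 2 * β)) * ‖x - y‖ ^ β := by
  obtain ⟨M, m0, hM⟩ := cs_bound hF.sm hF.cs
  obtain ⟨L, hL⟩ := hF.sm.lipschitzWith_of_hasCompactSupport hF.cs (by simp)
  have hL' : ∀ x y, ‖F x - F y‖ ≤ L * ‖x - y‖ := fun x y => by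
    have := hL.dist_le_mul x y
    rwa [dist_eq_norm, dist_eq_norm] at this
  have hL0 : (0 : ℝ) ≤ L := L.2
  set C := M + (2 * M) ^ (1 - β) * (L : ℝ) ^ β + 1 with hC
  have hc1 : 0 ≤ (2 * M) ^ (1 - β) := Real.rpow_nonneg (by positivity) _
  have hc2 : (0 : ℝ) ≤ (L : ℝ) ^ β := Real.rpow_nonneg hL0 _
  refine ⟨C, by positivity, fun s hs b hb => ⟨fun x => ?_, fun x y => ?_⟩⟩
  · have hs0 : 0 < s := by linarith
    show ‖b • (s ^ 3 • F (s ^ 2 • x))‖ ≤ _
    rw [norm_smul, norm_smul, Real.norm_eq_abs, Real.norm_eq_abs, abs_of_pos hb,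
      abs_of_pos (by positivity)]
    have h1 : s ^ 3 ≤ s ^ (3 + 2 * β) := by
      rw [← Real.rpow_natCast]
      apply Real.rpow_le_rpow_of_exponent_le hs
      push_cast
      linarith
    have h2 := hM (s ^ 2 • x)
    have h3 : M ≤ C := by
      have := mul_nonneg hc1 hc2
      linarith
    calc b * (s ^ 3 * ‖F (s ^ 2 • x)‖) ≤ b * (s ^ (3 + 2 * β) * C) := by
          apply mul_le_mul_of_nonneg_left _ hb.le
          exact mul_le_mul h1 (h2.trans h3) (norm_nonneg _) (by positivity)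
      _ = _ := by ring
  · have hs0 : 0 < s := by linarith
    have e : b • dil s F x - b • dil s F y = (b * s ^ 3) • (F (s ^ 2 • x) - F (s ^ 2 • y)) := by
      show b • (s ^ 3 • F (s ^ 2 • x)) - b • (s ^ 3 • F (s ^ 2 • y)) = _
      rw [smul_smul, smul_smul, ← smul_sub]
    set d := ‖F (s ^ 2 • x) - F (s ^ 2 • y)‖ with hd
    have hd0 : 0 ≤ d := norm_nonneg _
    have h1 : d ≤ 2 * M := by
      refine (norm_sub_le _ _).trans ?_
      linarith [hM (s ^ 2 • x), hM (s ^ 2 • y)]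
    have h2 : d ≤ L * (s ^ 2 * ‖x - y‖) := by
      have := hL' (s ^ 2 • x) (s ^ 2 • y)
      rw [← smul_sub, norm_smul, Real.norm_eq_abs, abs_of_pos (by positivity)] at this
      exact this
    have h3 : d ≤ (2 * M) ^ (1 - β) * ((L : ℝ) ^ β * (s ^ (2 * β) * ‖x - y‖ ^ β)) := by
      have e1 : d = d ^ (1 - β) * d ^ β := by
        rcases hd0.eq_or_lt with h | h
        · rw [← h, Real.zero_rpow hβ0.ne', mul_zero]
        · rw [← Real.rpow_add h]
          rw [show 1 - β + β = 1 by ring, Real.rpow_one]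
      have e2 : (L * (s ^ 2 * ‖x - y‖)) ^ β = (L : ℝ) ^ β * (s ^ (2 * β) * ‖x - y‖ ^ β) := by
        rw [Real.mul_rpow hL0 (by positivity), Real.mul_rpow (by positivity) (norm_nonneg _)]
        congr 2
        rw [← Real.rpow_natCast s 2, ← Real.rpow_mul hs0.le]
        norm_cast
      rw [← e2]
      calc d = d ^ (1 - β) * d ^ β := e1
        _ ≤ _ := by
          apply mul_le_mul
          · exact Real.rpow_le_rpow hd0 h1 (by linarith)
          · exact Real.rpow_le_rpow hd0 h2 hβ0.le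
          · exact Real.rpow_nonneg hd0 _
          · exact hc1
    rw [e, norm_smul, Real.norm_eq_abs, abs_of_pos (by positivity)]
    have e3 : s ^ 3 * s ^ (2 * β) = s ^ (3 + 2 * β) := by
      rw [← Real.rpow_natCast s 3, ← Real.rpow_add hs0]
      norm_cast
    have hxy : 0 ≤ ‖x - y‖ ^ β := Real.rpow_nonneg (norm_nonneg _) _
    calc b * s ^ 3 * d ≤ b * s ^ 3 * ((2 * M) ^ (1 - β) * ((L : ℝ) ^ β
          * (s ^ (2 * β) * ‖x - y‖ ^ β))) := mul_le_mul_of_nonneg_left h3 (by positivity)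
      _ = ((2 * M) ^ (1 - β) * (L : ℝ) ^ β) * (b * (s ^ 3 * s ^ (2 * β))) * ‖x - y‖ ^ β := by
          ring
      _ ≤ _ := by
          rw [e3]
          apply mul_le_mul_of_nonneg_right _ hxy
          apply mul_le_mul_of_nonneg_right _ (by positivity)
          linarith

/-- Small localised perturbations of every datum. -/
theorem eB {V0 T0 φ : V → V} (S : Src V0 T0 φ l R1)
    (hDV : 0 < Dir V0 V0) (hU : CF U) (hd : ∀ x, dvg U x = 0) (ha : Aw0 U)
    {δ q ε₀ β ε : ℝ} (hδ : 0 < δ) (hq : 1 < q) (hε₀ : 0 < ε₀) (hε : 0 < ε) (hβ0 : 0 < β)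
    (hβ1 : β < 1) : ∃ F : V → V, CF F ∧ (∀ x, dvg F x = 0) ∧ (∀ x, F x ≠ 0 → ‖x‖ ≤ ε) ∧
      (∀ x, ‖F x‖ ≤ ε) ∧ (∀ x y, ‖F x - F y‖ ≤ ε * ‖x - y‖ ^ β) ∧
      ∃ Q, ECh δ q ε₀ ε (fun x => U x + F x) Q := by
  obtain ⟨A₀, hA, H⟩ := S.echain hδ hq hε₀
  obtain ⟨C, hC, hH⟩ := dil_holder S.cu hβ0 hβ1
  obtain ⟨lU, hlU, hz⟩ := ha
  have hR1 : 0 < R1 := S.l0.trans_le S.lR
  set θ : ℝ := 4 + β with hθ
  have p2 : Tendsto (fun s : ℝ => s ^ 2) atTop atTop := tendsto_pow_atTop two_ne_zero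
  have p4 : Tendsto (fun s : ℝ => s ^ 4) atTop atTop := tendsto_pow_atTop four_ne_zero
  have E1 : ∀ᶠ s : ℝ in atTop, R1 / lU < s ^ 2 := p2.eventually_gt_atTop _
  have E2 : ∀ᶠ s : ℝ in atTop, R1 / ε ≤ s ^ 2 := p2.eventually_ge_atTop _
  have E2' : ∀ᶠ s : ℝ in atTop, R1 / ε₀ ≤ s ^ 2 := p2.eventually_ge_atTop _
  have E3 : ∀ᶠ s : ℝ in atTop, Dir U U * ip V0 V0 / (Dir V0 V0 * ip U U) ≤ s ^ 4 :=
    p4.eventually_ge_atTop _
  have E5 : ∀ᶠ s : ℝ in atTop, A₀ / ε ≤ s ^ (5 - θ) :=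
    (tendsto_rpow_atTop (by rw [hθ]; linarith)).eventually_ge_atTop _
  have E6 : ∀ᶠ s : ℝ in atTop, C * s ^ (-(θ - (3 + 2 * β))) ≤ ε := by
    have h1 : Tendsto (fun s : ℝ => C * s ^ (-(θ - (3 + 2 * β)))) atTop (𝓝 (C * 0)) :=
      (tendsto_rpow_neg_atTop (by rw [hθ]; linarith)).const_mul _
    rw [mul_zero] at h1
    exact h1.eventually_le_const hε
  obtain ⟨s, ⟨⟨⟨⟨⟨⟨e1, e2⟩, e2'⟩, e3⟩, e5⟩, e6⟩, hs1⟩⟩ :=
    ((((((E1.and E2).and E2').and E3).and E5).and E6).and (eventually_ge_atTop 1)).exists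
  have hs : 0 < s := by linarith
  have hb : 0 < s ^ (-θ) := Real.rpow_pos_of_pos hs _
  rw [div_lt_iff₀ hlU] at e1
  rw [div_le_iff₀ hε] at e2 e5
  rw [div_le_iff₀ hε₀] at e2'
  have hP : Prt U V0 T0 φ l R1 lU s (s ^ (-θ)) :=
    { S := S
      cu := hU
      du := hd
      zu := hz
      s1 := hs1
      sR := e1
      b0 := hb
      hD := by
        rcases (ip_nonneg U).lt_or_eq with h | h
        · rw [div_le_iff₀ (by positivity)] at e3
          linarith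
        · have hz0 : ∀ x, U x = 0 := by
            intro x
            funext i
            apply Carl.eq_zero_of_sq (hU.smc i) (hU.csc i) _ x
            refine le_trans ?_ h.symm.le
            unfold ip
            apply integral_mono
            · have := integrable_of_cs (hU.smc i).continuous (hU.csc i) (hU.smc i).continuous
              refine this.congr (Eventually.of_forall fun y => ?_)
              show U y i * U y i = U y i ^ 2
              ring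
            · exact ip_int hU.sm.continuous hU
            · intro y
              show U y i ^ 2 ≤ ∑ i, U y i * U y i
              have h1 : U y i * U y i ≤ ∑ i, U y i * U y i :=
                Finset.single_le_sum (f := fun i => U y i * U y i)
                  (fun i _ => mul_self_nonneg _) (Finset.mem_univ i)
              nlinarith
          have h1 : Dir U U = 0 := by
            apply Dir_zero_of
            intro x
            exact Or.inl (Eventually.of_forall hz0)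
          rw [h1, ← h]
          simp }
  have hsm : ∀ {y : V}, T0 y ≠ 0 ∨ φ y ≠ 0 → ‖y‖ ≤ R1 := fun hy =>
    hy.elim (fun h => (S.st _ h).2) (fun h => (S.sf _ h).2)
  obtain ⟨Q, hQ⟩ := H _ _ _ _ hP (fun x hx => by
    right
    have h4 := hsm hx
    rw [norm_smul, Real.norm_eq_abs, abs_of_pos (by positivity)] at h4
    have h5 : 0 < s ^ 2 := by positivity
    nlinarith)
  have hbs : C * (s ^ (-θ) * s ^ (3 + 2 * β)) ≤ ε := by
    rw [← Real.rpow_add hs]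
    have : -θ + (3 + 2 * β) = -(θ - (3 + 2 * β)) := by ring
    rw [this]
    exact e6
  refine ⟨fun x => s ^ (-θ) • dil s V0 x, hP.cV.smul _, fun x => ?_, fun x hx => ?_,
    fun x => ((hH s hs1 _ hb).1 x).trans hbs, fun x y => ((hH s hs1 _ hb).2 x y).trans ?_,
    Q, hQ.mono ?_⟩
  · rw [dvg_smul _ hP.cV, dvg_dil S.cu.smc, S.du, mul_zero, mul_zero]
  · have h2 : V0 (s ^ 2 • x) ≠ 0 := by
      intro h3
      apply hx
      show s ^ (-θ) • (s ^ 3 • V0 (s ^ 2 • x)) = 0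
      rw [h3, smul_zero, smul_zero]
    have h4 := (S.su _ h2).2
    rw [norm_smul, Real.norm_eq_abs, abs_of_pos (by positivity)] at h4
    have h5 : 0 < s ^ 2 := by positivity
    nlinarith
  · exact mul_le_mul_of_nonneg_right hbs (Real.rpow_nonneg (norm_nonneg _) _)
  · have h2 : s ^ (-θ) * s ^ 5 = s ^ (5 - θ) := by
      have h5 : s ^ (5 : ℕ) = s ^ (5 : ℝ) := by norm_cast
      rw [h5, ← Real.rpow_add hs]
      congr 1
      ring
    rw [h2, div_le_iff₀ (by positivity)]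
    linarith

end Pool.Agent.Run7.h407.G.X
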