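import Mathlib
import Pool.Agent.Run7.h407.G.ESp
import Pool.Agent.Run7.h407.D.Tr

/-!
Periodic extensions of fields supported in a ball inside the cube.
-/

namespace Pool.Agent.Run7.h407.G

open Set Filter Topology MeasureTheory
open scoped ContDiff

theorem far_of_geR {r : ℝ} (hr : r < Real.pi) {z : V} {i : Fin 3} (h1 : Real.pi ≤ |z i|)
    (h2 : |z i| < Real.pi + (Real.pi - r)) : r < |red z i| := by
  by_contra hcon
  push Not at hcon
  have hp := Real.pi_gt_three
  have h3 := red_add z i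
  have h4 : 2 * Real.pi * |(kv z i : ℝ)| ≤ |z i| + |red z i| := by
    have : 2 * Real.pi * (kv z i : ℝ) = z i - red z i := by linarith
    calc 2 * Real.pi * |(kv z i : ℝ)| = |2 * Real.pi * (kv z i : ℝ)| := by
          rw [abs_mul, abs_of_pos (by linarith : 0 < 2 * Real.pi)]
      _ = |z i - red z i| := by rw [this]
      _ ≤ _ := abs_sub _ _
  have h5 : |z i| ≤ 2 * Real.pi * |(kv z i : ℝ)| + |red z i| := by
    calc |z i| = |2 * Real.pi * (kv z i : ℝ) + red z i| := by
          congr 1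
          linarith
      _ ≤ |2 * Real.pi * (kv z i : ℝ)| + |red z i| := abs_add_le _ _
      _ = _ := by rw [abs_mul, abs_of_pos (by linarith : 0 < 2 * Real.pi)]
  have h6 : kv z i ≠ 0 := by
    intro h0
    rw [h0] at h5
    simp only [Int.cast_zero, abs_zero, mul_zero, zero_add] at h5
    linarith
  have h7 : (1 : ℝ) ≤ |(kv z i : ℝ)| := by
    have : (1 : ℤ) ≤ |kv z i| := Int.one_le_abs h6
    exact_mod_cast this
  nlinarith

/-- Near each point the periodic extension is a translate. -/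
theorem pex_localR {r : ℝ} (hr : r < Real.pi) (x : V) :
    ∀ᶠ y in 𝓝 x, ∀ f : V → V, Sb r f → pex f y = f (tk (kv x) y) := by
  have h1 : ∀ᶠ y in 𝓝 x, ‖tk (kv x) y - tk (kv x) x‖ < Real.pi - r := by
    have hc : Continuous (fun y => ‖tk (kv x) y - tk (kv x) x‖) :=
      ((tk_cont _).sub continuous_const).norm
    have := hc.tendsto x
    simp only [sub_self, norm_zero] at this
    exact this.eventually (gt_mem_nhds (by linarith))
  have hp := Real.pi_gt_three
  filter_upwards [h1] with y hy f hf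
  rw [tk_kv] at hy
  set z := tk (kv x) y with hz
  have hzc : ∀ i, |z i| < Real.pi + (Real.pi - r) := by
    intro i
    have h2 := (norm_le_pi_norm (z - red x) i).trans_lt hy
    rw [Real.norm_eq_abs] at h2
    have h3 := red_mem x i
    have h4 : |red x i| ≤ Real.pi := abs_le.2 ⟨h3.1, h3.2.le⟩
    have h5 : |z i| ≤ |(z - red x) i| + |red x i| := by
      have : z i = (z - red x) i + red x i := by simp
      rw [this]
      exact abs_add_le _ _
    linarith
  have e : pex f y = f (red z) := by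
    unfold pex
    rw [hz, red_tk]
  rw [e]
  by_cases hin : ∀ i, |z i| < Real.pi
  · rw [red_self fun i => ⟨(abs_lt.1 (hin i)).1.le, (abs_lt.1 (hin i)).2⟩]
  · push Not at hin
    obtain ⟨i, hi⟩ := hin
    have h3 := far_of_geR hr hi (hzc i)
    have h4 : f (red z) = 0 := by
      by_contra hcon
      have h5 := hf _ hcon
      have h6 := norm_le_pi_norm (red z) i
      rw [Real.norm_eq_abs] at h6
      linarith
    have h7 : f z = 0 := by
      by_contra hcon
      have h5 := hf _ hcon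
      have h6 := norm_le_pi_norm z i
      rw [Real.norm_eq_abs] at h6
      linarith
    rw [h4, h7]

theorem pex_smoothR {r : ℝ} (hr : r < Real.pi) {f : V → V} (hf : ContDiff ℝ ∞ f) (h1 : Sb r f) : ContDiff ℝ ∞ (pex f) := by
  rw [contDiff_iff_contDiffAt]
  intro x
  have h2 : ContDiffAt ℝ ∞ (fun y => f (tk (kv x) y)) x :=
    (hf.comp (tk_smooth _)).contDiffAt
  apply h2.congr_of_eventuallyEq
  filter_upwards [pex_localR hr x] with y hy
  exact hy f h1

/-- Periodic extensions of smooth time-dependent fields. -/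
theorem pex_smoothTR {r : ℝ} (hr : r < Real.pi) {T : ℝ} {w : ℝ → V → V}
    (hw : ContDiffOn ℝ ∞ (fun z : ℝ × V => w z.1 z.2) (Ico 0 T ×ˢ univ))
    (h1 : ∀ t ∈ Ico 0 T, Sb r (w t)) :
    ContDiffOn ℝ ∞ (fun z : ℝ × V => pex (w z.1) z.2) (Ico 0 T ×ˢ univ) := by
  rintro ⟨t, x⟩ ⟨ht, _⟩
  have h2 : ContDiffOn ℝ ∞ (fun z : ℝ × V => w z.1 (tk (kv x) z.2)) (Ico 0 T ×ˢ univ) := by
    have h3 : ContDiffOn ℝ ∞ (fun z : ℝ × V => (z.1, tk (kv x) z.2)) (Ico 0 T ×ˢ univ) :=
      (contDiff_fst.prodMk ((tk_smooth _).comp contDiff_snd)).contDiffOn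
    exact hw.comp h3 (fun z hz => ⟨hz.1, mem_univ _⟩)
  apply (h2 (t, x) ⟨ht, mem_univ _⟩).congr_of_eventuallyEq
  · have h4 : ∀ᶠ z : ℝ × V in 𝓝 (t, x), ∀ f : V → V, Sb r f →
        pex f z.2 = f (tk (kv x) z.2) :=
      (continuous_snd.tendsto (t, x)).eventually (pex_localR hr x)
    filter_upwards [mem_nhdsWithin_of_mem_nhds h4, self_mem_nhdsWithin] with z hz hz2
    exact hz _ (h1 _ hz2.1)
  · exact (pex_localR hr x).self_of_nhds _ (h1 t ht)

/-- Derivatives of periodic extensions. -/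
theorem pd_pexR {r : ℝ} (hr : r < Real.pi) {f : V → V} (hf : ∀ i, Differentiable ℝ (fun y => f y i)) (h1 : Sb r f) (i j : Fin 3)
    (x : V) : pd j (fun y => pex f y i) x = pd j (fun y => f y i) (red x) := by
  have h2 : (fun y => pex f y i) =ᶠ[𝓝 x] fun y => (fun z => f z i) (y - fun i => 2 * Real.pi * kv x i) := by
    filter_upwards [pex_localR hr x] with y hy
    rw [hy f h1]
    rfl
  rw [pd_congr h2, pd_comp_sub (hf i), ← tk_eq, tk_kv]

theorem dvg_pexR {r : ℝ} (hr : r < Real.pi) {f : V → V} (hf : ∀ i, Differentiable ℝ (fun y => f y i)) (h1 : Sb r f) (x : V) :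
    dvg (pex f) x = dvg f (red x) := by
  unfold dvg
  apply Finset.sum_congr rfl
  intro i _
  exact pd_pexR hr hf h1 i i x

/-- The residual of a periodic extension. -/
theorem res_pexR {r : ℝ} (hr : r < Real.pi) {w : ℝ → V → V} {T : ℝ} {t : ℝ} (ht : t ∈ Ico 0 T)
    (hw : ∀ t ∈ Ico 0 T, ∀ i, Differentiable ℝ (fun y => w t y i))
    (h1 : ∀ t ∈ Ico 0 T, Sb r (w t)) (x : V) (i : Fin 3) :
    resE (fun t => pex (w t)) t x i = residual 0 w t (red x) i := by
  unfold resE residual
  rw [zero_mul, sub_zero]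
  congr 1
  apply Finset.sum_congr rfl
  intro j _
  rw [pd_pexR hr (hw t ht) (h1 t ht)]
  rfl

theorem res_indR {r : ℝ} (hr : r < Real.pi) {w : ℝ → V → V} {T : ℝ} {t : ℝ} (ht : t ∈ Ico 0 T)
    (hw : ∀ t ∈ Ico 0 T, ∀ i, Differentiable ℝ (fun y => w t y i))
    (h1 : ∀ t ∈ Ico 0 T, Sb r (w t)) (v : V → V) :
    ∫ x in cube, ∑ i, resE (fun t => pex (w t)) t x i * v x i
      = ∫ x, ∑ i, residual 0 w t x i * cube.indicator v x i := by
  rw [← integral_indicator Run7.h308.T.cube_meas]
  congr 1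
  funext x
  by_cases hx : x ∈ cube
  · rw [indicator_of_mem hx, indicator_of_mem hx]
    apply Finset.sum_congr rfl
    intro i _
    rw [res_pexR hr ht hw h1, red_self hx]
  · rw [indicator_of_notMem hx, indicator_of_notMem hx]
    simp

end Pool.Agent.Run7.h407.G
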