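import Mathlib
import Pool.Agent.Run7.h407.DE.TorR
import Pool.Agent.Run7.h407.DE.ECh

/-!
The Euler equations on the torus projected on spaces given by a chain centred at `z`.
-/

namespace Pool.Agent.Run7.h407.G.X

open Set Filter Topology MeasureTheory
open scoped ContDiff

/-- Translation and periodic extension. -/
noncomputable def pz (z : V) (f : V → V) : V → V := pex (Tl z f)

/-- The constraint fields on the torus. -/
noncomputable def GT (Q : ℕ → V → V) (z : V) (n : ℕ) : Fin 2 → V → V :=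
  ![pz z (GA Q n), pz z (GB Q n)]

theorem Tl_CF {f : V → V} (hf : CF f) (z : V) : CF (Tl z f) := ⟨sm_Tl z hf.sm, cs_Tl z hf.cs⟩

theorem mem_cube_of_lt {x : V} (h : ‖x‖ < Real.pi) : x ∈ cube := by
  intro i
  have h1 := (norm_le_pi_norm x i).trans_lt h
  rw [Real.norm_eq_abs] at h1
  have h2 := abs_lt.1 h1
  exact ⟨h2.1.le, h2.2⟩

theorem smt_diff {f : V → V} (hf : ContDiff ℝ ∞ f) (i : Fin 3) :
    Differentiable ℝ (fun y => f y i) := (sm_comp hf i).differentiable (by simp)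

variable {Q : ℕ → V → V} {lo hi : ℕ → ℝ} {R r : ℝ} {z : V}

/-- Cutting a periodic field off. -/
theorem ind_smooth {v : V → V} (hr : r < Real.pi) (hv : ContDiff ℝ ∞ v)
    (hz : ∀ x ∈ cube, r < ‖x‖ → v x = 0) :
    CF (cube.indicator v) ∧ Sb r (cube.indicator v) := by
  have hzero : ∀ x : V, r < ‖x‖ → cube.indicator v x = 0 := by
    intro x hx
    by_cases hc : x ∈ cube
    · rw [indicator_of_mem hc]
      exact hz x hc hx
    · exact indicator_of_notMem hc _
  have hsm : ContDiff ℝ ∞ (cube.indicator v) := by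
    rw [contDiff_iff_contDiffAt]
    intro x
    rcases lt_or_ge ‖x‖ Real.pi with hx | hx
    · apply hv.contDiffAt.congr_of_eventuallyEq
      have ho : IsOpen {y : V | ‖y‖ < Real.pi} := isOpen_lt continuous_norm continuous_const
      filter_upwards [ho.mem_nhds hx] with y hy
      rw [indicator_of_mem (mem_cube_of_lt hy)]
    · apply (contDiffAt_const (c := (0 : V))).congr_of_eventuallyEq
      have ho : IsOpen {y : V | r < ‖y‖} := isOpen_lt continuous_const continuous_norm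
      filter_upwards [ho.mem_nhds (show r < ‖x‖ by linarith)] with y hy
      exact hzero y hy
  refine ⟨⟨hsm, ?_⟩, fun x hx => ?_⟩
  · apply HasCompactSupport.intro (isCompact_closedBall (0 : V) r)
    intro x hx
    rw [mem_closedBall_zero_iff, not_le] at hx
    exact hzero x hx
  · by_contra hcon
    exact hx (hzero x (not_le.1 hcon))

theorem pex_ind {v : V → V} (hp : Per v) : pex (cube.indicator v) = v := by
  funext x
  unfold pex
  rw [indicator_of_mem (red_mem x), per_red hp]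

/-- Smooth superpositions on the torus come from smooth superpositions on the whole space. -/
theorem mem_pz (h : ChN Q lo hi R) (hr : r < Real.pi) (hS : ∀ n, Sb r (Tl z (Q n))) {v : V → V}
    (hv : ContDiff ℝ ∞ v) (hp : Per v) {c : ℕ → ℝ}
    (hm : ∀ x, HasSum (fun n => c n • pz z (Q (n + 1)) x) (v x)) :
    ∃ f : V → V, CF f ∧ Sb r (Tl z f) ∧ Mem Q (Sc.sh c) f ∧ v = pz z f := by
  have hz0 : ∀ x ∈ cube, r < ‖x‖ → v x = 0 := by
    intro x hc hx
    have h1 := hm x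
    have h2 : (fun n => c n • pz z (Q (n + 1)) x) = fun _ => 0 := by
      funext n
      unfold pz
      rw [pex_cube _ hc]
      have : Tl z (Q (n + 1)) x = 0 := by
        by_contra hcon
        exact absurd (hS _ x hcon) (not_le.2 hx)
      rw [this, smul_zero]
    rw [h2] at h1
    exact h1.unique hasSum_zero
  obtain ⟨h1, h2⟩ := ind_smooth hr hv hz0
  have e1 : Tl z (Tl (-z) (cube.indicator v)) = cube.indicator v := Tl_inv z _
  refine ⟨Tl (-z) (cube.indicator v), Tl_CF h1 _, by rw [e1]; exact h2, ?_, ?_⟩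
  · apply mem_of_shift h.zero
    intro y
    show HasSum (fun n => c n • Q (n + 1) y) (cube.indicator v (y - -z))
    have e2 : y - -z = y + z := by abel
    rw [e2]
    have e3 : ∀ n, Q (n + 1) y = Tl z (Q (n + 1)) (y + z) := fun n => by
      show _ = Q (n + 1) (y + z - z)
      rw [add_sub_cancel_right]
    by_cases hc : y + z ∈ cube
    · rw [indicator_of_mem hc]
      have h3 := hm (y + z)
      refine (congrArg (fun f => HasSum f (v (y + z))) (funext fun n => ?_)).mp h3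
      unfold pz
      rw [pex_cube _ hc, e3]
    · rw [indicator_of_notMem hc]
      have h4 : (fun n => c n • Q (n + 1) y) = fun _ => 0 := by
        funext n
        have : Q (n + 1) y = 0 := by
          rw [e3]
          by_contra hcon
          exact hc (mem_cube_of_lt (by linarith [hS _ _ hcon]))
        rw [this, smul_zero]
      rw [h4]
      exact hasSum_zero
  · unfold pz
    rw [e1, pex_ind hp]

theorem Sb_Tl_adv {f g : V → V} (hf : Sb r (Tl z f)) : Sb r (Tl z (adv f g)) := by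
  have h1 : Tl z (adv f g) = adv (Tl z f) (Tl z g) := by
    funext x i
    show ∑ j, f (x - z) j * pd j (fun y => g y i) (x - z)
      = ∑ j, Tl z f x j * pd j (fun y => Tl z g y i) x
    apply Finset.sum_congr rfl
    intro j _
    exact congrArg₂ (· * ·) rfl (pd_Tl z (fun y => g y i) j x).symm
  rw [h1]
  exact hf.adv _

theorem GA_sbT (hS : ∀ n, Sb r (Tl z (Q n))) (n : ℕ) : Sb r (Tl z (GA Q n)) :=
  (Sb_Tl_adv (hS (n + 1))).add (((hS (n + 2)).smul _).sub ((hS n).smul _))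

theorem GB_sbT (hS : ∀ n, Sb r (Tl z (Q n))) (n : ℕ) : Sb r (Tl z (GB Q n)) :=
  ((Sb_Tl_adv (hS (n + 1))).add (Sb_Tl_adv (hS (n + 2)))).add
    (((hS (n + 2)).smul _).sub ((hS (n + 1)).smul _))

theorem GT_smooth (h : ChN Q lo hi R) (hr : r < Real.pi) (hS : ∀ n, Sb r (Tl z (Q n))) (n : ℕ)
    (i : Fin 2) : ContDiff ℝ ∞ (GT Q z n i) := by
  fin_cases i
  · exact pex_smoothR hr (sm_Tl z (h.GA_CF n).sm) (GA_sbT hS n)
  · exact pex_smoothR hr (sm_Tl z (h.GB_CF n).sm) (GB_sbT hS n)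

theorem GT_per (Q : ℕ → V → V) (z : V) (n : ℕ) (i : Fin 2) : Per (GT Q z n i) := by
  fin_cases i
  · exact pex_per (Tl z (GA Q n))
  · exact pex_per (Tl z (GB Q n))

/-- The pairing on the torus. -/
theorem ipT_pz (g w : V → V) : ipT (pz z g) w = ip g (Tl (-z) (cube.indicator w)) := by
  unfold pz
  rw [← ip_ind, ← ip_Tl z g, Tl_inv]

theorem con_indT {w : V → V} (h2 : L2T w) (hc : ∀ n i, ipT w (GT Q z n i) = 0) :
    Con 0 Q (Tl (-z) (cube.indicator w)) := by
  refine ⟨L2F_Tl _ (ind_L2 h2), fun j => ?_, fun j => ?_, fun h => absurd rfl h⟩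
  · rw [← ipT_pz, ipT_comm]
    exact hc j 0
  · rw [← ipT_pz, ipT_comm]
    exact hc j 1

theorem dvg_pz {f : V → V} (hr : r < Real.pi) (hf : CF f) (h1 : Sb r (Tl z f)) (x : V) :
    dvg (pz z f) x = dvg f (red x - z) := by
  unfold pz
  rw [dvg_pexR hr (smt_diff (sm_Tl z hf.sm)) h1, dvg_Tl]

theorem ind_pz {f : V → V} (hr : r < Real.pi) (h1 : Sb r (Tl z f)) :
    Tl (-z) (cube.indicator (pz z f)) = f := by
  have e : cube.indicator (pz z f) = Tl z f := by
    funext x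
    by_cases hc : x ∈ cube
    · rw [indicator_of_mem hc]
      exact pex_cube _ hc
    · rw [indicator_of_notMem hc]
      by_contra hcon
      have h2 := h1 x (fun h => hcon h.symm)
      exact hc (mem_cube_of_lt (by linarith))
  rw [e, Tl_inv']

theorem WmaxT_isSpR (h : ChN Q lo hi R) (hr : r < Real.pi) (hS : ∀ n, Sb r (Tl z (Q n)))
    (hG : ∀ n i, L2T (GT Q z n i)) :
    IsSpT (fun n => pz z (Q (n + 1))) (GT Q z) (WmaxT (GT Q z) hG) := by
  refine ⟨fun w hw => hw.1, fun w hw => hw.2.1, fun w hw => hw.2.2.1, fun w hw => hw.2.2.2, ?_⟩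
  rintro v hv hp ⟨c, hm⟩
  obtain ⟨f, h1, h2, h3, h4⟩ := mem_pz h hr hS hv hp hm
  have hv1 : ContDiff ℝ 1 v := hv.of_le (by norm_cast)
  refine ⟨hp, L2T_of_cont hv.continuous, ?_, fun n i => ?_⟩
  · rw [Run7.h308.T.tw v hv1 hp]
    intro x
    rw [h4, dvg_pz hr h1 h2]
    exact ChN.mem_dvg h h3 h1.sm _
  · have key : ∀ g : V → V, CF g → Aw0 g → (∀ k, ip (Q k) g = 0) → ipT v (pz z g) = 0 := by
      intro g hg ha hk
      rw [ipT_comm, ipT_pz, h4, ind_pz hr h2, ip_comm]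
      exact ChN.mem_orth h h3 hg ha hk
    fin_cases i
    · exact key _ (h.GA_CF n) (ChN.aw_A h n) fun k => by
        rw [ip_comm]
        exact (h.con 0 k).ca n
    · exact key _ (h.GB_CF n) (ChN.aw_B h n) fun k => by
        rw [ip_comm]
        exact (h.con 0 k).cb n

theorem hasSum_shift (h0 : ∀ x, Q 0 x = 0) {c : ℕ → ℝ} {v : V → V} (hm : Mem Q c v) (x : V) :
    HasSum (fun n => c (n + 1) • Q (n + 1) x) (v x) := shift_of_mem h0 hm x

/-- Maximality. -/
theorem projT_maxR {m : ℕ} {p : ℕ → V → V} {g : ℕ → Fin m → V → V} {W : Submodule ℝ (V → V)}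
    (hW : IsSpT p g W) {T T' : ℝ} {u w : ℝ → V → V} (hT : 0 < T) (hu : IsProjT W T u)
    (hb : ∀ M, ∀ᶠ t in 𝓝[<] T, ∃ x ∈ cube, M < curl2 (u t) x)
    (hw : IsProjT W T' w) (h0 : ∀ x, w 0 x = u 0 x) :
    T' ≤ T ∧ ∀ t ∈ Ico 0 T', w t = u t := by
  have hle : T' ≤ T := by
    by_contra hcon
    push Not at hcon
    have h1 := projT_unique hW (hw.restrict hcon.le) hu h0
    have hc := hw.c1t hW
    obtain ⟨C0, _, hC0⟩ := Run7.h308.T.box_bound hcon
      (Run7.h308.T.fdv_cont hc (0, Pi.single 0 1) 1)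
    obtain ⟨C1, _, hC1⟩ := Run7.h308.T.box_bound hcon
      (Run7.h308.T.fdv_cont hc (0, Pi.single 1 1) 0)
    obtain ⟨t, ⟨x, hx1, hx⟩, ht⟩ := ((hb (C0 + C1)).and (Ioo_mem_nhdsLT hT)).exists
    have ht' : t ∈ Ico 0 T' := ⟨ht.1.le, ht.2.trans hcon⟩
    have hxb : x ∈ Run7.h308.T.box := Run7.h308.T.cube_sub hx1
    have h2 := hC0 t ⟨ht.1.le, ht.2.le⟩ x hxb
    have h3 := hC1 t ⟨ht.1.le, ht.2.le⟩ x hxb
    rw [← Run7.h308.T.space_deriv hc ht'] at h2 h3
    rw [← h1 t ⟨ht.1.le, ht.2⟩] at hx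
    unfold curl2 at hx
    have h4 := abs_le.1 h2
    have h5 := abs_le.1 h3
    linarith [h4.2, h5.1]
  exact ⟨hle, projT_unique hW hw (hu.restrict hle) h0⟩

/-- The modes and the constraint fields on the torus. -/
structure FamT (q : ℝ) (z : V) (U : V → V) (p : ℕ → V → V) (g : ℕ → Fin 2 → V → V) : Prop where
  zero : p 0 = U
  mode : ∀ n, ContDiff ℝ ∞ (p n) ∧ Per (p n) ∧ (∀ x, dvg (p n) x = 0) ∧ 0 < ipT (p n) (p n)
  orth : ∀ m n, m ≠ n → ipT (p m) (p n) = 0
  field : ∀ n i, ContDiff ℝ ∞ (g n i) ∧ Per (g n i) ∧ ∀ᶠ x in 𝓝 z, g n i x = 0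
  ball : ∀ n i, ∀ x ∈ cube, g (n + 3) i x ≠ 0 → ‖x - z‖ ≤ (2 : ℝ) ^ (-(q ^ (n + 2)))
  big : ∃ W : Submodule ℝ (V → V), IsSpT p g W ∧ ∀ w, w ∈ W ↔ Per w ∧ L2T w ∧ WDT w ∧
      ∀ (n : ℕ) (i : Fin 2), ipT w (g n i) = 0

/-- Blow-up on the torus. -/
def BloT (δ : ℝ) (z : V) (p : ℕ → V → V) (g : ℕ → Fin 2 → V → V) (v : V → V) (T₀ : ℝ) : Prop :=
  ∃ T, 0 < T ∧ T ≤ T₀ ∧ ∃ u : ℝ → V → V,
    ContDiffOn ℝ ∞ (fun y : ℝ × V => u y.1 y.2) (Ico 0 T ×ˢ univ) ∧ u 0 = v ∧
    (∃ C, ∀ t ∈ Ico 0 T, ∀ x, ‖u t x‖ ≤ C) ∧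
    (∃ C, ∀ t ∈ Ico 0 T, ∀ x ∈ cube, ∀ i j,
      |pd j (fun y => u t y i) x| * ‖x - z‖ ^ δ ≤ C) ∧
    (∀ M, ∀ᶠ t in 𝓝[<] T, ∃ x, M < curl2 (u t) x) ∧
    ∀ W : Submodule ℝ (V → V), IsSpT p g W → IsProjT W T u ∧
      ∀ (T' : ℝ) (w : ℝ → V → V), IsProjT W T' w → w 0 = v →
        T' ≤ T ∧ ∀ t ∈ Ico 0 T', w t = u t

theorem curl2_pz {f : V → V} (hr : r < Real.pi) (hf : CF f) (h1 : Sb r (Tl z f)) (x : V) :
    curl2 (pz z f) x = curl2 f (red x - z) := by
  unfold curl2 pz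
  rw [pd_pexR hr (smt_diff (sm_Tl z hf.sm)) h1, pd_pexR hr (smt_diff (sm_Tl z hf.sm)) h1]
  exact congrArg₂ (· - ·) (pd_Tl z (fun y => f y 1) 0 _) (pd_Tl z (fun y => f y 0) 1 _)

theorem ipT_pz2 {f g : V → V} (hr : r < Real.pi) (hg : Sb r (Tl z g)) :
    ipT (pz z f) (pz z g) = ip f g := by
  rw [ipT_pz, ind_pz hr hg]

/-- From the whole space to the torus. -/
theorem ECh.tor {δ q ε₀ A₀ : ℝ} {U : V → V} (H : ECh δ q ε₀ A₀ U Q) (hr : r < Real.pi)
    (hsU : ∀ x ∈ tsupport U, ‖x + z‖ ≤ r) (hsε : ε₀ + ‖z‖ ≤ r) :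
    ∃ (p : ℕ → V → V) (g : ℕ → Fin 2 → V → V), FamT q z (pz z U) p g ∧
      ∀ a > 0, BloT δ z p g (fun x => a • pz z U x) (A₀ / a) := by
  obtain ⟨lo, hi, R, hch⟩ := H.chn
  have hzr : ‖z‖ < Real.pi ∨ ε₀ < 0 := by
    rcases lt_or_ge ε₀ 0 with h | h
    · exact Or.inr h
    · left
      linarith
  have hS : ∀ n, Sb r (Tl z (Q n)) := by
    intro n x hx
    rcases H.supp n (x - z) hx with h | h
    · have := hsU _ h
      rwa [sub_add_cancel] at this
    · have h2 : ‖x‖ ≤ ‖x - z‖ + ‖z‖ := by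
        have := norm_add_le (x - z) z
        rwa [sub_add_cancel] at this
      linarith
  have hG : ∀ n i, L2T (GT Q z n i) := fun n i =>
    L2T_of_cont (GT_smooth hch hr hS n i).continuous
  have hcurl : ∀ {Tb : ℝ} {u : ℝ → V → V}, 0 < Tb → (∀ t ∈ Ico 0 Tb, CF (u t)) →
      (∀ t ∈ Ico 0 Tb, Sb r (Tl z (u t))) →
      (∀ M, ∀ᶠ t in 𝓝[<] Tb, ∃ x : V, ‖x‖ ≤ ε₀ ∧ M < curl2 (u t) x) →
      ∀ M, ∀ᶠ t in 𝓝[<] Tb, ∃ x ∈ cube, M < curl2 (pz z (u t)) x := by
    intro Tb u hTb hc hs hb M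
    filter_upwards [hb M, Ioo_mem_nhdsLT hTb] with t ht htI
    obtain ⟨x, hx1, hx2⟩ := ht
    have htm : t ∈ Ico 0 Tb := ⟨htI.1.le, htI.2⟩
    have hxc : x + z ∈ cube := mem_cube_of_lt (by
      have := norm_add_le x z
      linarith)
    refine ⟨x + z, hxc, ?_⟩
    rw [curl2_pz hr (hc t htm) (hs t htm), red_self hxc, add_sub_cancel_right]
    exact hx2
  refine ⟨fun n => pz z (Q (n + 1)), GT Q z, ⟨?_, fun n => ⟨?_, ?_, fun x => ?_, ?_⟩,
    fun m n hmn => ?_, fun n i => ⟨GT_smooth hch hr hS n i, GT_per Q z n i, ?_⟩,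
    fun n i x hx hne => ?_, ⟨WmaxT (GT Q z) hG, WmaxT_isSpR hch hr hS hG, fun w => Iff.rfl⟩⟩,
    fun a ha => ?_⟩
  · show pz z (Q 1) = pz z U
    rw [H.one]
  · exact pex_smoothR hr (sm_Tl z (hch.cf _).sm) (hS _)
  · exact pex_per _
  · rw [dvg_pz hr (hch.cf _) (hS _)]
    exact hch.dv _ _
  · rw [ipT_pz2 hr (hS _)]
    exact hch.N0 n
  · show ipT (pz z (Q (m + 1))) (pz z (Q (n + 1))) = 0
    rw [ipT_pz2 hr (hS _)]
    exact (hch.orth (by omega)).1
  · have key : ∀ f : V → V, Sb r (Tl z f) → Aw0 f → ∀ᶠ x in 𝓝 z, pz z f x = 0 := by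
      rintro f hf ⟨b, hb, hz⟩
      have ho : IsOpen {y : V | ‖y - z‖ < b} :=
        isOpen_lt (continuous_id.sub continuous_const).norm continuous_const
      rcases hzr with hzr | hzr
      · have ho2 : IsOpen {y : V | ‖y‖ < Real.pi} := isOpen_lt continuous_norm continuous_const
        filter_upwards [ho.mem_nhds (show ‖z - z‖ < b by rw [sub_self, norm_zero]; exact hb),
          ho2.mem_nhds hzr] with y hy hy2
        unfold pz
        rw [pex_cube _ (mem_cube_of_lt hy2)]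
        exact hz _ hy
      · -- there is nothing near `z`
        exfalso
        obtain ⟨Tb, h1, h2, u, h3, h4, h5, h6, h7, h8, h9⟩ := H.sol 1 one_pos
        obtain ⟨t, x, hx, -⟩ := (h9 0).exists
        linarith [norm_nonneg x]
    fin_cases i
    · exact key _ (GA_sbT hS n) (ChN.aw_A hch n)
    · exact key _ (GB_sbT hS n) (ChN.aw_B hch n)
  · have h1 := H.ball n
    fin_cases i
    · have h2 : pz z (GA Q (n + 3)) x ≠ 0 := hne
      unfold pz at h2
      rw [pex_cube _ hx] at h2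
      exact h1.1 (x - z) h2
    · have h2 : pz z (GB Q (n + 3)) x ≠ 0 := hne
      unfold pz at h2
      rw [pex_cube _ hx] at h2
      exact h1.2 (x - z) h2
  · obtain ⟨Tb, h1, h2, u, h3, h4, h5, h6, ⟨C1, h7⟩, ⟨C2, h8⟩, h9⟩ := H.sol a ha
    have hmemb : ∀ t ∈ Ico 0 Tb, Sb r (Tl z (u t)) := by
      intro t ht x hx
      obtain ⟨c, hc⟩ := (h5 t ht).2
      by_contra hcon
      push Not at hcon
      apply hx
      have h10 := hc (x - z)
      have h11 : (fun n => c n • Q n (x - z)) = fun _ => 0 := by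
        funext n
        have : Tl z (Q n) x = 0 := by
          by_contra h12
          exact absurd (hS n x h12) (not_le.2 hcon)
        have h13 : Q n (x - z) = 0 := this
        rw [h13, smul_zero]
      rw [h11] at h10
      exact h10.unique hasSum_zero
    have hsmT : ContDiffOn ℝ ∞ (fun y : ℝ × V => Tl z (u y.1) y.2) (Ico 0 Tb ×ˢ univ) := by
      have h12 : ContDiff ℝ ∞ (fun y : ℝ × V => (y.1, y.2 - z)) :=
        contDiff_fst.prodMk (contDiff_snd.sub contDiff_const)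
      exact h4.comp h12.contDiffOn (fun y hy => ⟨hy.1, mem_univ _⟩)
    have hsm := pex_smoothTR hr hsmT hmemb
    have hcf : ∀ t ∈ Ico 0 Tb, CF (u t) := fun t ht => (h5 t ht).1
    have hdf : ∀ t ∈ Ico 0 Tb, ∀ i, Differentiable ℝ (fun y => Tl z (u t) y i) :=
      fun t ht i => smt_diff (sm_Tl z (hcf t ht).sm) i
    have hcu := hcurl h1 hcf hmemb h9
    have hpr : ∀ W : Submodule ℝ (V → V), IsSpT (fun n => pz z (Q (n + 1))) (GT Q z) W →
        IsProjT W Tb (fun t => pz z (u t)) := by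
      intro W hW
      refine ⟨hsm.of_le (by norm_cast), fun t ht => ?_, fun t ht w hw' => ?_⟩
      · obtain ⟨c, hc⟩ := (h5 t ht).2
        refine hW.mem _ (pex_smoothR hr (sm_Tl z (hcf t ht).sm) (hmemb t ht)) (pex_per _)
          ⟨fun n => c (n + 1), fun x => ?_⟩
        exact hasSum_shift hch.zero hc (red x - z)
      · have htm : t ∈ Ico 0 Tb := ⟨ht.1.le, ht.2⟩
        have e1 := res_indR hr (w := fun t => Tl z (u t)) htm hdf hmemb w
        refine e1.trans ?_
        have h14 := h6 t ht _ (con_indT (hW.l2 w hw') (hW.cs w hw'))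
        rw [← int_Tl z] at h14
        refine (congrArg (fun F => ∫ x, F x) (funext fun x => ?_)).trans h14
        apply Finset.sum_congr rfl
        intro i _
        have e2 : Tl (-z) (cube.indicator w) (x - z) = cube.indicator w x := by
          show cube.indicator w (x - z - -z) = _
          congr 1
          abel
        rw [e2]
        congr 1
        unfold residual
        simp only [zero_mul, sub_zero]
        congr 1
        apply Finset.sum_congr rfl
        intro j _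
        exact congrArg₂ (· * ·) rfl (pd_Tl z (fun y => u t y i) j x)
    refine ⟨Tb, h1, h2, fun t => pz z (u t), hsm, ?_, ⟨C1, fun t ht x => h7 t ht _⟩,
      ⟨C2, fun t ht x hx i j => ?_⟩, fun M => ?_, fun W hW => ⟨hpr W hW, fun T' w hw h0 => ?_⟩⟩
    · funext x
      exact h3 (red x - z)
    · have e1 : (fun y => (fun t => pz z (u t)) t y i) = fun y => pex (Tl z (u t)) y i := rfl
      rw [e1, pd_pexR hr (smt_diff (sm_Tl z (hcf t ht).sm)) (hmemb t ht), red_self hx]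
      have e2 : pd j (fun y => Tl z (u t) y i) x = pd j (fun y => u t y i) (x - z) :=
        pd_Tl z (fun y => u t y i) j x
      rw [e2]
      exact h8 t ht (x - z) i j
    · filter_upwards [hcu M] with t ht
      obtain ⟨x, _, hx⟩ := ht
      exact ⟨x, hx⟩
    · refine projT_maxR hW h1 (hpr W hW) hcu hw fun x => ?_
      rw [h0]
      exact (h3 (red x - z)).symm

end Pool.Agent.Run7.h407.G.X
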