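import Mathlib
import Pool.Agent.Run7.h407.DE.EspR
import Pool.Agent.Run7.h407.D.Fin

/-!
The Euler equations on the torus: blow-up from every datum supported inside the cube which is
not a steady flow, and from small perturbations of every such datum.
-/

namespace Pool.Agent.Run7.h407.G.X

open Set Filter Topology MeasureTheory
open scoped ContDiff

variable {U : V → V} {r δ q : ℝ} {z : V}

theorem adv_pex {f : V → V} (hr : r < Real.pi) (hf : CF f) (h1 : Sb r f) :
    adv (pex f) (pex f) = pex (adv f f) := by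
  funext x i
  show ∑ j, pex f x j * pd j (fun y => pex f y i) x
    = ∑ j, f (red x) j * pd j (fun y => f y i) (red x)
  apply Finset.sum_congr rfl
  intro j _
  rw [pd_pexR hr (smt_diff hf.sm) h1]
  rfl

theorem om_pex {f : V → V} (hr : r < Real.pi) (hf : CF f) (h1 : Sb r f) (i : Fin 3) (x : V) :
    om i (pex f) x = om i f (red x) := by
  unfold om
  rw [pd_pexR hr (smt_diff hf.sm) h1, pd_pexR hr (smt_diff hf.sm) h1]

/-- The field on the whole space which belongs to a field on the torus. -/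
structure Cut (U U' : V → V) (z : V) (r : ℝ) : Prop where
  cf : CF U'
  dv : ∀ x, dvg U' x = 0
  aw : Aw0 U'
  eq : pz z U' = U
  ts : ∀ x ∈ tsupport U', ‖x + z‖ ≤ r

theorem exists_cut (hU : ContDiff ℝ ∞ U) (hp : Per U) (hd : ∀ x, dvg U x = 0)
    (hr : r < Real.pi) (hs : ∀ x ∈ cube, U x ≠ 0 → ‖x‖ ≤ r) (hz : ‖z‖ < Real.pi)
    (hz0 : ∀ᶠ x in 𝓝 z, U x = 0) : Cut U (Tl (-z) (cube.indicator U)) z r ∧
      ∀ i x, om i (adv U U) x = om i (adv (Tl (-z) (cube.indicator U))
        (Tl (-z) (cube.indicator U))) (red x - z) := by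
  obtain ⟨h1, h2⟩ := ind_smooth hr hU (fun x hx hrx => by
    by_contra hcon
    linarith [hs x hx hcon])
  set U0 := cube.indicator U with hU0
  have e0 : pex U0 = U := pex_ind hp
  have hd0 : ∀ y, dvg U0 y = 0 := by
    intro y
    by_cases hy : y ∈ cube
    · have := dvg_pexR hr (smt_diff h1.sm) h2 y
      rw [e0, red_self hy] at this
      rw [← this]
      exact hd y
    · have hy2 : r < ‖y‖ := by
        by_contra hcon
        push Not at hcon
        exact hy (mem_cube_of_lt (by linarith))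
      have hz1 : ∀ᶠ x in 𝓝 y, U0 x = 0 := by
        filter_upwards [nhds_gtn hy2] with x hx
        by_contra hcon
        linarith [h2 x hcon]
      exact Finset.sum_eq_zero fun i _ => pd_ev_zero hz1 i i
  have hzz : ∀ᶠ x in 𝓝 z, U0 x = 0 := by
    filter_upwards [hz0] with x hx
    rw [hU0]
    by_cases hc : x ∈ cube
    · rw [indicator_of_mem hc, hx]
    · exact indicator_of_notMem hc _
  refine ⟨⟨Tl_CF h1 _, fun x => by rw [dvg_Tl, hd0], Aw0_Tl hzz, ?_, fun x hx => ?_⟩,
    fun i x => ?_⟩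
  · unfold pz
    rw [Tl_inv, e0]
  · have hc : tsupport (Tl (-z) U0) ⊆ {y | ‖y + z‖ ≤ r} := by
      apply closure_minimal
      · intro y hy
        have h3 : U0 (y - -z) ≠ 0 := hy
        have h4 := h2 _ h3
        have e : y - -z = y + z := by abel
        rw [e] at h4
        exact h4
      · exact isClosed_le ((continuous_id.add continuous_const).norm) continuous_const
    exact hc hx
  · rw [adv_Tl, om_Tl, ← e0, adv_pex hr h1 h2, om_pex hr (adv_CF h1 h1) (h2.adv _)]
    congr 1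
    abel

/-- Every datum supported inside the cube which is not a steady flow. -/
theorem mainTA (hδ : 0 < δ) (hq : 1 < q) (hU : ContDiff ℝ ∞ U) (hp : Per U)
    (hd : ∀ x, dvg U x = 0)
    (hr : r < Real.pi) (hs : ∀ x ∈ cube, U x ≠ 0 → ‖x‖ ≤ r) (hz : ‖z‖ < Real.pi)
    (hz0 : ∀ᶠ x in 𝓝 z, U x = 0) (hns : ∃ i x, om i (adv U U) x ≠ 0) :
    ∃ (p : ℕ → V → V) (g : ℕ → Fin 2 → V → V), FamT q z U p g ∧
      ∃ A₀ > 0, ∀ a > 0, BloT δ z p g (fun x => a • U x) (A₀ / a) := by
  obtain ⟨hc, ho⟩ := exists_cut hU hp hd hr hs hz hz0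
  set U' := Tl (-z) (cube.indicator U) with hU'
  have hns' : ∃ i x, om i (adv U' U') x ≠ 0 := by
    obtain ⟨i, x, hx⟩ := hns
    exact ⟨i, red x - z, by rw [← ho]; exact hx⟩
  have hε : 0 < (Real.pi - ‖z‖) / 2 := by linarith
  obtain ⟨A₀, Q, hA, H⟩ := eA hc.cf hc.dv hc.aw hns' hδ hq hε
  obtain ⟨p, g, h1, h2⟩ := H.tor (r := max r ((‖z‖ + Real.pi) / 2)) (z := z)
    (max_lt hr (by linarith)) (fun x hx => (hc.ts x hx).trans (le_max_left _ _))
    (le_trans (by linarith) (le_max_right _ _))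
  rw [hc.eq] at h1 h2
  exact ⟨p, g, h1, A₀, hA, h2⟩

/-- Hölder bounds of periodic extensions. -/
theorem pex_holder {f : V → V} (hr : r < Real.pi) (h1 : Sb r f) {C β : ℝ} (hC : 0 ≤ C)
    (h : ∀ x y, ‖f x - f y‖ ≤ C * ‖x - y‖ ^ β) (x y : V) :
    ‖pex f x - pex f y‖ ≤ 2 * C * ‖x - y‖ ^ β := by
  have hn : 0 ≤ C * ‖x - y‖ ^ β := mul_nonneg hC (Real.rpow_nonneg (norm_nonneg _) _)
  have key : ∀ x y : V, pex f y = f (tk (kv x) y) ∨ ‖pex f x‖ ≤ C * ‖x - y‖ ^ β := by
    intro x y
    by_cases hy : tk (kv x) y ∈ cube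
    · left
      show f (red y) = _
      rw [← red_tk (kv x) y, red_self hy]
    · right
      have h0 : f (tk (kv x) y) = 0 := by
        by_contra hcon
        exact hy (mem_cube_of_lt (by linarith [h1 _ hcon]))
      have h2 := h (tk (kv x) x) (tk (kv x) y)
      have e : tk (kv x) x - tk (kv x) y = x - y := by
        rw [tk_eq, tk_eq]
        abel
      rw [e, h0, sub_zero, tk_kv] at h2
      exact h2
  have heq : ∀ x y : V, pex f y = f (tk (kv x) y) →
      ‖pex f x - pex f y‖ ≤ C * ‖x - y‖ ^ β := by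
    intro x y hy
    have h2 := h (tk (kv x) x) (tk (kv x) y)
    have e : tk (kv x) x - tk (kv x) y = x - y := by
      rw [tk_eq, tk_eq]
      abel
    rw [e, tk_kv] at h2
    rw [hy]
    exact h2
  rcases key x y with h2 | h2
  · linarith [heq x y h2]
  · rcases key y x with h3 | h3
    · have h4 := heq y x h3
      rw [norm_sub_rev, norm_sub_rev y x] at h4
      linarith
    · rw [norm_sub_rev y x] at h3
      have := norm_sub_le (pex f x) (pex f y)
      linarith

/-- Small localised perturbations of every datum supported inside the cube. -/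
theorem mainTB (hδ : 0 < δ) (hq : 1 < q) (hU : ContDiff ℝ ∞ U) (hp : Per U)
    (hd : ∀ x, dvg U x = 0)
    (hr : r < Real.pi) (hs : ∀ x ∈ cube, U x ≠ 0 → ‖x‖ ≤ r) (hz : ‖z‖ < Real.pi)
    (hz0 : ∀ᶠ x in 𝓝 z, U x = 0) {β ε : ℝ} (hβ0 : 0 < β) (hβ1 : β < 1) (hε : 0 < ε) :
    ∃ F : V → V, ContDiff ℝ ∞ F ∧ Per F ∧ (∀ x, dvg F x = 0) ∧
      (∀ x ∈ cube, F x ≠ 0 → ‖x - z‖ ≤ ε) ∧ (∀ x, ‖F x‖ ≤ ε) ∧
      (∀ x y, ‖F x - F y‖ ≤ ε * ‖x - y‖ ^ β) ∧
      ∃ (p : ℕ → V → V) (g : ℕ → Fin 2 → V → V), FamT q z (fun x => U x + F x) p g ∧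
        ∀ a > 0, BloT δ z p g (fun x => a • (U x + F x)) (ε / a) := by
  obtain ⟨hc, -⟩ := exists_cut hU hp hd hr hs hz hz0
  set U' := Tl (-z) (cube.indicator U) with hU'
  obtain ⟨V0, T0, φ, l, R1, S, hDV⟩ := exists_src0
  have hε₀ : 0 < (Real.pi - ‖z‖) / 2 := by linarith
  have hε' : 0 < min (ε / 2) ((Real.pi - ‖z‖) / 2) := lt_min (by linarith) hε₀
  obtain ⟨F, f1, f2, f3, f4, f5, Q, H⟩ := eB S hDV hc.cf hc.dv hc.aw hδ hq hε₀ hε' hβ0 hβ1
  set ε' := min (ε / 2) ((Real.pi - ‖z‖) / 2) with hε'd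
  have hee : ε' ≤ ε / 2 := min_le_left _ _
  have hr' : max r ((‖z‖ + Real.pi) / 2) < Real.pi := max_lt hr (by linarith)
  have hsF : Sb (max r ((‖z‖ + Real.pi) / 2)) (Tl z F) := by
    intro x hx
    have h1 := (f3 (x - z) hx).trans (min_le_right _ _)
    have h2 : ‖x‖ ≤ ‖x - z‖ + ‖z‖ := by
      have := norm_add_le (x - z) z
      rwa [sub_add_cancel] at this
    exact le_trans (by linarith) (le_max_right _ _)
  have hts : ∀ x ∈ tsupport (fun x => U' x + F x), ‖x + z‖ ≤ max r ((‖z‖ + Real.pi) / 2) := by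
    intro x hx
    have hcl : tsupport (fun x => U' x + F x) ⊆ {y | ‖y + z‖ ≤ max r ((‖z‖ + Real.pi) / 2)} := by
      apply closure_minimal
      · intro y hy
        by_cases hF : F y = 0
        · have h1 : U' y ≠ 0 := by
            intro h2
            apply hy
            show U' y + F y = 0
            rw [h2, hF, add_zero]
          exact (hc.ts y (subset_tsupport _ h1)).trans (le_max_left _ _)
        · have h1 := (f3 y hF).trans (min_le_right _ _)
          have h2 := norm_add_le y z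
          exact (show ‖y + z‖ ≤ (‖z‖ + Real.pi) / 2 by linarith).trans (le_max_right _ _)
      · exact isClosed_le ((continuous_id.add continuous_const).norm) continuous_const
    exact hcl hx
  obtain ⟨p, g, h1, h2⟩ := H.tor (r := max r ((‖z‖ + Real.pi) / 2)) (z := z) hr' hts
    (le_trans (by linarith) (le_max_right _ _))
  have e1 : pz z (fun x => U' x + F x) = fun x => U x + pz z F x := by
    funext x
    show U' (red x - z) + F (red x - z) = U x + F (red x - z)
    have := congrFun hc.eq x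
    rw [← this]
    rfl
  rw [e1] at h1 h2
  refine ⟨pz z F, pex_smoothR hr' (sm_Tl z f1.sm) hsF, pex_per _, fun x => ?_, fun x hx hne => ?_,
    fun x => (f4 _).trans (by linarith), fun x y => ?_, p, g, h1, fun a ha => ?_⟩
  · rw [dvg_pz hr' f1 hsF, f2]
  · unfold pz at hne
    rw [pex_cube _ hx] at hne
    exact (f3 (x - z) hne).trans (by linarith)
  · have h3 := pex_holder hr' hsF (C := ε') (β := β) hε'.le (fun x y => by
      have := f5 (x - z) (y - z)
      rwa [sub_sub_sub_cancel_right] at this) x y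
    refine h3.trans ?_
    apply mul_le_mul_of_nonneg_right _ (Real.rpow_nonneg (norm_nonneg _) _)
    linarith
  · obtain ⟨T, t1, t2, t3⟩ := h2 a ha
    refine ⟨T, t1, t2.trans ?_, t3⟩
    apply div_le_div_of_nonneg_right _ ha.le
    linarith

end Pool.Agent.Run7.h407.G.X
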